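import Mathlib
import Pool.Agent.H826R2.Wein.Main

/-! Quasi-periodic Reeb orbits for contact forms with a local torus symmetry: for every monodromy
group some Reeb orbit is the orbit of a (real) one-parameter subgroup of the torus. -/

open scoped Topology ContDiff Manifold
open Set Metric Bundle Pool.Agent.Helper186 Pool.Agent.H826R2.Wein

noncomputable section

namespace Pool.Agent.R775

set_option linter.unusedSectionVars false

universe u

variable {E : Type u} [NormedAddCommGroup E] [NormedSpace ℝ E] [FiniteDimensional ℝ E]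
  {P : Type*} [TopologicalSpace P] [ChartedSpace E P] [IsManifold 𝓘(ℝ, E) ∞ P]
  {β : (x : P) → TangentSpace 𝓘(ℝ, E) x →L[ℝ] ℝ} {m : ℕ}
  (A : TAct β m)

/-- the momentum map in coordinates -/
def mu (x : P) : Fin m → ℝ := fun i => A.H (Pi.single i 1) x

lemma H_eq_sum (κ : Fin m → ℝ) (x : P) : A.H κ x = ∑ i, κ i * mu A x i :=
  A.H_expand x κ

lemma contMDiff_mu (hβ : SmoothForm β) : ContMDiff 𝓘(ℝ, E) 𝓘(ℝ, Fin m → ℝ) ∞ (mu A) := by
  rw [contMDiff_pi_space]
  intro i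
  exact A.smooth_H hβ _

/-- the derivative of a function in the preferred chart -/
lemma dForm_eq_fderiv {f : P → ℝ} (hf : ContMDiff 𝓘(ℝ, E) 𝓘(ℝ, ℝ) ∞ f) (x : P) :
    (dForm 𝓘(ℝ, E) f x : E →L[ℝ] ℝ) =
      fderiv ℝ (f ∘ (extChartAt 𝓘(ℝ, E) x).symm) (extChartAt 𝓘(ℝ, E) x x) := by
  have h : MDifferentiableAt 𝓘(ℝ, E) 𝓘(ℝ, ℝ) f x := hf.mdifferentiableAt (by simp)
  have h2 := h.mfderiv
  refine (show (mfderiv 𝓘(ℝ, E) 𝓘(ℝ, ℝ) f x : E →L[ℝ] ℝ) = _ from h2).trans ?_
  simp only [writtenInExtChartAt, extChartAt_model_space_eq_id, PartialEquiv.refl_coe,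
    Function.id_comp, modelWithCornersSelf_coe, range_id, fderivWithin_univ]

/-- If no contact Hamiltonian is critical at `x` then the momentum map is open at `x`. -/
lemma map_nhds_mu (hβ : SmoothForm β) {x : P}
    (hx : ∀ κ : Fin m → ℝ, κ ≠ 0 → dForm 𝓘(ℝ, E) (A.H κ) x ≠ 0) :
    Filter.map (mu A) (𝓝 x) = 𝓝 (mu A x) := by
  have hs := contMDiff_mu A hβ
  set φ := extChartAt 𝓘(ℝ, E) x with hφ
  set F : E → (Fin m → ℝ) := mu A ∘ φ.symm with hF
  have hFs : ContDiffAt ℝ ∞ F (φ x) := by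
    have h1 : ContMDiffAt 𝓘(ℝ, E) 𝓘(ℝ, E) ∞ φ.symm (φ x) :=
      (contMDiffOn_extChartAt_symm x).contMDiffAt (extChartAt_target_mem_nhds x)
    exact (hs.contMDiffAt.comp (φ x) h1).contDiffAt
  have hd : HasStrictFDerivAt F (fderiv ℝ F (φ x)) (φ x) :=
    hFs.hasStrictFDerivAt (by simp)
  have hsurj : (fderiv ℝ F (φ x)).range = ⊤ := by
    by_contra hne
    obtain ⟨f, hf0, hf⟩ := Submodule.exists_le_ker_of_lt_top _ (lt_top_iff_ne_top.2 hne)
    set κ : Fin m → ℝ := fun i => f (Pi.single i 1) with hκ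
    have hfκ : ∀ v, f v = ∑ i, κ i * v i := by
      intro v
      rw [lin_expand f v]
      exact Finset.sum_congr rfl fun i _ => mul_comm _ _
    apply hx κ
    · intro h0
      apply hf0
      refine LinearMap.ext fun v => ?_
      rw [hfκ, h0]
      simp
    · have h1 : (A.H κ ∘ φ.symm : E → ℝ) = (LinearMap.toContinuousLinearMap f) ∘ F := by
        ext1 z
        show A.H κ (φ.symm z) = f (mu A (φ.symm z))
        rw [hfκ, H_eq_sum]
      have h2 : (dForm 𝓘(ℝ, E) (A.H κ) x : E →L[ℝ] ℝ) = 0 := by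
        rw [dForm_eq_fderiv (A.smooth_H hβ κ) x, ← hφ, h1]
        refine ContinuousLinearMap.ext fun u => ?_
        have h3 := ((LinearMap.toContinuousLinearMap f).hasFDerivAt.comp (φ x) hd.hasFDerivAt).fderiv
        rw [h3]
        show f (fderiv ℝ F (φ x) u) = 0
        exact hf ⟨u, rfl⟩
      exact h2
  have h4 := hd.map_nhds_eq_of_surj hsurj
  have h5 : Filter.map φ.symm (𝓝 (φ x)) = 𝓝 x := by
    have h := (map_extChartAt_symm_nhdsWithin_range (I := 𝓘(ℝ, E)) x)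
    rw [show range (𝓘(ℝ, E) : E → E) = univ from range_id, nhdsWithin_univ] at h
    exact h
  rw [← h5, Filter.map_map]
  have h6 : F (φ x) = mu A x := by
    show mu A (φ.symm (φ x)) = _
    rw [hφ, extChartAt_to_inv]
  rw [← h6]
  exact h4

/-- a nonempty open subset of a space of positive dimension contains a point with rational
direction -/
lemma exists_int_mem {O : Set (Fin m → ℝ)} (hm : 0 < m) {y : Fin m → ℝ} (hO : O ∈ 𝓝 y) :
    ∃ (k : Fin m → ℤ) (s : ℝ), k ≠ 0 ∧ 0 < s ∧ s • (fun i => (k i : ℝ)) ∈ O := by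
  have : Nonempty (Fin m) := ⟨⟨0, hm⟩⟩
  obtain ⟨U, hUO, hU, hyU⟩ := _root_.mem_nhds_iff.1 hO
  obtain ⟨z, hzU, hz0⟩ : ∃ z ∈ U, z ≠ 0 := by
    have := (dense_compl_singleton (0 : Fin m → ℝ)).inter_open_nonempty U hU ⟨y, hyU⟩
    obtain ⟨z, hz, hz'⟩ := this
    exact ⟨z, hz, hz'⟩
  obtain ⟨ε, hε, hball⟩ := Metric.isOpen_iff.1 (hU.inter isOpen_compl_singleton) z ⟨hzU, hz0⟩
  have hq : ∀ i, ∃ q : ℚ, |z i - q| < ε := fun i => by
    obtain ⟨q, h1, h2⟩ := exists_rat_btwn (show z i - ε < z i by linarith)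
    exact ⟨q, by rw [abs_lt]; constructor <;> linarith⟩
  choose q hq using hq
  have hmem : (fun i => (q i : ℝ)) ∈ ball z ε := by
    rw [mem_ball, dist_pi_lt_iff hε]
    intro i
    rw [Real.dist_eq, abs_sub_comm]
    exact hq i
  set N : ℕ := ∏ i, (q i).den with hN
  have hNpos : 0 < N := Finset.prod_pos fun i _ => (q i).den_pos
  have hk : ∀ i, ∃ k : ℤ, (k : ℝ) = (N : ℝ) * (q i : ℝ) := fun i => by
    obtain ⟨c, hc⟩ := Finset.dvd_prod_of_mem (fun i => (q i).den) (Finset.mem_univ i)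
    refine ⟨c * (q i).num, ?_⟩
    have h1 : ((q i : ℚ) : ℝ) = ((q i).num : ℝ) / ((q i).den : ℝ) := by
      exact_mod_cast (Rat.num_div_den (q i)).symm
    have h2 : ((q i).den : ℝ) ≠ 0 := by exact_mod_cast (q i).den_nz
    rw [h1, hN, hc]
    push_cast
    field_simp
  choose k hk using hk
  have hNr : (0 : ℝ) < N := by exact_mod_cast hNpos
  have hq' : (fun i => (q i : ℝ)) = (N : ℝ)⁻¹ • (fun i => (k i : ℝ)) := by
    ext i
    rw [Pi.smul_apply, smul_eq_mul, hk]
    field_simp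
  refine ⟨k, (N : ℝ)⁻¹, ?_, by positivity, ?_⟩
  · intro h0
    have h1 := (hball hmem).2
    apply h1
    rw [mem_singleton_iff, hq', h0]
    ext i
    simp
  · rw [← hq']
    exact hUO (hball hmem).1

variable {N₀ : ℕ} {ι : Imm (E := E) P N₀} {Γ : Type*} [Group Γ] [MulAction Γ P]

/-- the momentum of a translate of a point with integral direction -/
lemma mu_smul (𝒟 : Deck ι Γ) (hN : A.Norm Γ) (k : Fin m → ℤ) (γ : Γ) :
    ∃ k' : Fin m → ℤ, ∀ (s : ℝ) (x : P), mu A x = s • (fun i => (k i : ℝ)) →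
      mu A (γ • x) = s • (fun i => (k' i : ℝ)) := by
  obtain ⟨B, hB⟩ := A.H_equiv 𝒟 hN γ⁻¹
  refine ⟨fun i => ∑ j, B (Pi.single i 1) j * k j, fun s x hx => ?_⟩
  ext i
  have h1 := hB (Pi.single i 1) (γ • x)
  rw [inv_smul_smul] at h1
  have h2 : (fun j => ((Pi.single i (1:ℤ) : Fin m → ℤ) j : ℝ)) = Pi.single i (1:ℝ) := by
    ext j
    by_cases h : j = i
    · subst h; simp
    · simp [h]
  rw [h2] at h1
  show A.H (Pi.single i 1) (γ • x) = _
  rw [← h1, H_eq_sum, hx]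
  simp only [Pi.smul_apply, smul_eq_mul]
  push_cast
  rw [Finset.mul_sum]
  refine Finset.sum_congr rfl fun j _ => ?_
  ring

/-- **Quasi-periodic orbits.** Some real contact Hamiltonian of the torus has a critical point. -/
theorem exists_real_crit [Nonempty P] (hβ : SmoothForm β) (𝒟 : Deck ι Γ) (hN : A.Norm Γ)
    (hm : 0 < m) :
    ∃ (κ : Fin m → ℝ) (x : P), κ ≠ 0 ∧ dForm 𝓘(ℝ, E) (A.H κ) x = 0 := by
  by_contra hno
  push Not at hno
  have hopen : ∀ x, range (mu A) ∈ 𝓝 (mu A x) := fun x => by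
    rw [← map_nhds_mu A hβ (fun κ hκ => hno κ x hκ)]
    exact Filter.range_mem_map
  have hcont : Continuous (mu A) := (contMDiff_mu A hβ).continuous
  obtain ⟨x₀⟩ := (inferInstance : Nonempty P)
  obtain ⟨k, s₀, hk, hs₀, x₁, hx₁⟩ := exists_int_mem hm (hopen x₀)
  -- the bound
  obtain ⟨C, hC⟩ := (𝒟.compact.image hcont).isBounded.exists_norm_le
  have hC' : ∀ y ∈ 𝒟.D, ‖mu A y‖ ≤ C := fun y hy => hC _ (mem_image_of_mem _ hy)
  set S : Set ℝ := {s | s₀ ≤ s ∧ ∃ x, mu A x = s • (fun i => (k i : ℝ))} with hS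
  -- the relevant integral vectors
  set 𝒦 : Set (Fin m → ℤ) := {k' | ‖(fun i => (k' i : ℝ))‖ ≤ C / s₀ ∧ k' ≠ 0 ∧ ∃ γ : Γ,
    ∀ (s : ℝ) (x : P), mu A x = s • (fun i => (k' i : ℝ)) →
      mu A (γ • x) = s • (fun i => (k i : ℝ))} with h𝒦
  have h𝒦fin : 𝒦.Finite := by
    obtain ⟨N, hN'⟩ := exists_nat_ge (C / s₀)
    refine (Set.finite_Icc (fun _ => -(N:ℤ)) (fun _ : Fin m => (N:ℤ))).subset ?_
    rintro k' ⟨h1, -⟩
    have h3 : ∀ i, |(k' i : ℝ)| ≤ N := fun i => by
      have := norm_le_pi_norm (fun i => (k' i : ℝ)) i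
      rw [Real.norm_eq_abs] at this
      exact (this.trans h1).trans hN'
    constructor
    · intro i
      have := (abs_le.1 (h3 i)).1
      exact_mod_cast this
    · intro i
      have := (abs_le.1 (h3 i)).2
      exact_mod_cast this
  have hSeq : S = ⋃ k' ∈ 𝒦, {s | s₀ ≤ s ∧ ∃ y ∈ 𝒟.D, mu A y = s • (fun i => (k' i : ℝ))} := by
    ext s
    simp only [mem_iUnion]
    constructor
    · rintro ⟨hs, x, hx⟩
      have hspos : 0 < s := hs₀.trans_le hs
      obtain ⟨γ, hγ⟩ := 𝒟.cover x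
      obtain ⟨k', hk'⟩ := mu_smul A 𝒟 hN k γ
      obtain ⟨k'', hk''⟩ := mu_smul A 𝒟 hN k' γ⁻¹
      have h1 := hk' s x hx
      have h2 := hk'' s _ h1
      rw [inv_smul_smul, hx] at h2
      have h3 : k'' = k := by
        ext i
        have h4 := congrFun h2 i
        simp only [Pi.smul_apply, smul_eq_mul] at h4
        have h5 := mul_left_cancel₀ hspos.ne' h4
        exact_mod_cast h5.symm
      rw [h3] at hk''
      refine ⟨k', ⟨?_, ?_, γ⁻¹, hk''⟩, hs, γ • x, hγ, h1⟩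
      · have h4 := hC' _ hγ
        rw [h1, norm_smul, Real.norm_of_nonneg hspos.le] at h4
        rw [le_div_iff₀ hs₀, mul_comm]
        exact (mul_le_mul_of_nonneg_right hs (norm_nonneg _)).trans h4
      · intro h0
        have h4 := hk'' (2 * s) (γ • x) (by rw [h1, h0]; ext i; simp)
        rw [inv_smul_smul, hx] at h4
        apply hk
        ext i
        have h5 := congrFun h4 i
        simp only [Pi.smul_apply, smul_eq_mul] at h5
        have h6 : s * (k i : ℝ) = 0 := by linarith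
        rcases mul_eq_zero.1 h6 with h | h
        · exact absurd h hspos.ne'
        · exact_mod_cast h
    · rintro ⟨k', ⟨-, -, γ, hγ⟩, hs, y, -, hy⟩
      exact ⟨hs, γ • y, hγ s y hy⟩
  have hScomp : IsCompact S := by
    rw [hSeq]
    refine h𝒦fin.isCompact_biUnion fun k' hk' => ?_
    have hc1 : IsCompact (Icc s₀ C ×ˢ 𝒟.D ∩
        {p : ℝ × P | mu A p.2 = p.1 • (fun i => (k' i : ℝ))}) := by
      refine (isCompact_Icc.prod 𝒟.compact).inter_right ?_
      exact isClosed_eq (hcont.comp continuous_snd) (continuous_fst.smul continuous_const)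
    have hc2 := hc1.image continuous_fst
    convert hc2 using 1
    ext s
    constructor
    · rintro ⟨hs, y, hy, hμ⟩
      refine ⟨(s, y), ⟨⟨⟨hs, ?_⟩, hy⟩, hμ⟩, rfl⟩
      have hspos : 0 < s := hs₀.trans_le hs
      have h4 := hC' _ hy
      rw [hμ, norm_smul, Real.norm_of_nonneg hspos.le] at h4
      obtain ⟨i, hi⟩ : ∃ i, k' i ≠ 0 := by
        by_contra hcon
        push Not at hcon
        exact hk'.2.1 (funext hcon)
      have h5 : (1 : ℝ) ≤ ‖(fun i => (k' i : ℝ))‖ := by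
        refine le_trans ?_ (norm_le_pi_norm (fun i => (k' i : ℝ)) i)
        rw [Real.norm_eq_abs]
        have := Int.one_le_abs hi
        exact_mod_cast this
      nlinarith
    · rintro ⟨⟨s', y⟩, ⟨⟨h1, h2⟩, h3⟩, rfl⟩
      exact ⟨h1.1, y, h2, h3⟩
  have hSne : S.Nonempty := ⟨s₀, le_rfl, x₁, hx₁⟩
  obtain ⟨s, ⟨hs, x, hx⟩, hmax⟩ := hScomp.exists_isGreatest hSne
  -- push further
  have h1 := hopen x
  have h2 : Filter.Tendsto (fun t : ℝ => (s + t) • (fun i => (k i : ℝ))) (𝓝[>] 0) (𝓝 (mu A x)) := by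
    have h3 : ContinuousAt (fun t : ℝ => (s + t) • (fun i => (k i : ℝ))) 0 := by fun_prop
    have h4 := h3.tendsto
    rw [add_zero, ← hx] at h4
    exact h4.mono_left nhdsWithin_le_nhds
  have h3 := (h2.eventually h1).and self_mem_nhdsWithin
  obtain ⟨t, ⟨y, hy⟩, ht⟩ := h3.exists
  have h4 : s + t ∈ S := ⟨by have : (0:ℝ) < t := ht; linarith, y, hy⟩
  have h5 := hmax h4
  have : (0:ℝ) < t := ht
  linarith

end Pool.Agent.R775
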