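import Mathlib
import Pool.Agent.H826R2.Wein.Main
import Pool.Agent.R775.W1

/-! Products of a function and a contact form. -/

open scoped Topology ContDiff Manifold
open Set Metric Bundle Pool.Agent.Helper186 Pool.Agent.H826R2.Wein

noncomputable section

namespace Pool.Agent.R775

set_option linter.unusedSectionVars false

universe u

variable {E : Type u} [NormedAddCommGroup E] [NormedSpace ℝ E] [FiniteDimensional ℝ E]
  {P : Type*} [TopologicalSpace P] [ChartedSpace E P] [IsManifold 𝓘(ℝ, E) ∞ P]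
  {β : (x : P) → TangentSpace 𝓘(ℝ, E) x →L[ℝ] ℝ}

lemma smoothForm_smul {h : P → ℝ} (hh : ContMDiff 𝓘(ℝ, E) 𝓘(ℝ, ℝ) ∞ h) (hβ : SmoothForm β) :
    SmoothForm (fun x => h x • β x) := by
  have h1 : ContMDiff 𝓘(ℝ, E).tangent 𝓘(ℝ, ℝ) ∞
      (fun V : TangentBundle 𝓘(ℝ, E) P => h V.1) :=
    hh.comp (contMDiff_proj (TangentSpace 𝓘(ℝ, E) : P → Type _))
  exact fun V => (h1 V).mul (hβ V)

lemma extDer_smul {h : P → ℝ} (hh : ContMDiff 𝓘(ℝ, E) 𝓘(ℝ, ℝ) ∞ h) (hβ : SmoothForm β)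
    (x : P) (u v : TangentSpace 𝓘(ℝ, E) x) :
    extDer 𝓘(ℝ, E) (fun x => h x • β x) x u v =
      dForm 𝓘(ℝ, E) h x u * β x v - dForm 𝓘(ℝ, E) h x v * β x u +
        h x * extDer 𝓘(ℝ, E) β x u v := by
  set φ := extChartAt 𝓘(ℝ, E) x with hφ
  have h1 : chartForm 𝓘(ℝ, E) (fun x => h x • β x) x =
      fun y => (h ∘ φ.symm) y • chartForm 𝓘(ℝ, E) β x y := by
    ext1 y
    refine ContinuousLinearMap.ext fun w => ?_
    rfl
  have hd : DifferentiableAt ℝ (chartForm 𝓘(ℝ, E) β x) (φ x) :=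
    ((contDiffOn_chartForm hβ x).contDiffAt
      (extChartAt_target_mem_nhds x)).differentiableAt (by simp)
  have hd2 : DifferentiableAt ℝ (h ∘ φ.symm) (φ x) := by
    have h2 : ContMDiffAt 𝓘(ℝ, E) 𝓘(ℝ, E) ∞ φ.symm (φ x) :=
      (contMDiffOn_extChartAt_symm x).contMDiffAt (extChartAt_target_mem_nhds x)
    exact (hh.contMDiffAt.comp (φ x) h2).contDiffAt.differentiableAt (by simp)
  have h2 := (hd2.hasFDerivAt.smul hd.hasFDerivAt).fderiv
  have h3 : fderiv ℝ (fun y => (h ∘ φ.symm) y • chartForm 𝓘(ℝ, E) β x y) (φ x) = _ := h2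
  have h4 : (dForm 𝓘(ℝ, E) h x : E →L[ℝ] ℝ) = fderiv ℝ (h ∘ φ.symm) (φ x) :=
    dForm_eq_fderiv hh x
  have h5 : (h ∘ φ.symm) (φ x) = h x := by
    show h (φ.symm (φ x)) = _
    rw [hφ, extChartAt_to_inv]
  have h6 : ∀ w : E, chartForm 𝓘(ℝ, E) β x (φ x) w = β x w := by
    intro w
    have e : ∀ (z : P) (a b : E), z = x → a = b → β z a = β x b := by
      rintro z a b rfl rfl; rfl
    exact e _ _ _ (extChartAt_to_inv x) (mfderiv_extChartAt_symm_self x w)
  have h7 : ∀ w : E, dForm 𝓘(ℝ, E) h x w = fderiv ℝ (h ∘ φ.symm) (φ x) w :=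
    fun w => DFunLike.congr_fun h4 w
  show fderiv ℝ (chartForm 𝓘(ℝ, E) (fun x => h x • β x) x) (φ x) u v -
    fderiv ℝ (chartForm 𝓘(ℝ, E) (fun x => h x • β x) x) (φ x) v u = _
  rw [h1, h3, h7, h7, ← h6, ← h6]
  unfold extDer
  rw [← hφ, ← h5]
  simp only [_root_.add_apply, _root_.smul_apply,
    ContinuousLinearMap.smulRight_apply, smul_eq_mul]
  ring

lemma extDer_antisymm' (x : P) (u v : TangentSpace 𝓘(ℝ, E) x) :
    extDer 𝓘(ℝ, E) β x u v = - extDer 𝓘(ℝ, E) β x v u := by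
  unfold extDer
  ring

/-- a positive multiple of a contact form is a contact form -/
lemma isContact_smul {h : P → ℝ} (hh : ContMDiff 𝓘(ℝ, E) 𝓘(ℝ, ℝ) ∞ h) (hpos : ∀ x, 0 < h x)
    (hc : IsContact β) : IsContact (fun x => h x • β x) where
  smooth := smoothForm_smul hh hc.smooth
  ne_zero := fun x h0 => by
    have h1 : h x • β x = 0 := h0
    rcases smul_eq_zero.1 h1 with h2 | h2
    · exact (hpos x).ne' h2
    · exact hc.ne_zero x h2
  nondeg := by
    intro x u hu hv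
    have h1 : ∀ v, (h x • β x) v = h x * β x v := fun v => rfl
    rw [h1] at hu
    have hu' : β x u = 0 := (mul_eq_zero.1 hu).resolve_left (hpos x).ne'
    refine hc.nondeg x u hu' fun v hv' => ?_
    have h2 := hv v (by rw [h1, hv', mul_zero])
    rw [extDer_smul hh hc.smooth, hu', hv', mul_zero, mul_zero, sub_self, zero_add] at h2
    exact (mul_eq_zero.1 h2).resolve_left (hpos x).ne'

/-- the Reeb field of a positive multiple -/
lemma exists_reeb_smul {h : P → ℝ} (hh : ContMDiff 𝓘(ℝ, E) 𝓘(ℝ, ℝ) ∞ h) (hpos : ∀ x, 0 < h x)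
    (hc : IsContact β) {R : (x : P) → TangentSpace 𝓘(ℝ, E) x} (hR : IsReeb β R) :
    ∃ R' : (x : P) → TangentSpace 𝓘(ℝ, E) x, IsReeb (fun x => h x • β x) R' := by
  have key : ∀ x : P, ∃ r : TangentSpace 𝓘(ℝ, E) x, (h x • β x) r = 1 ∧
      ∀ v, extDer 𝓘(ℝ, E) (fun x => h x • β x) x r v = 0 := by
    intro x
    let b : E →L[ℝ] ℝ := β x
    let Ω : E →L[ℝ] E →L[ℝ] ℝ := extDerL 𝓘(ℝ, E) β x
    have hΩ : ∀ u v : E, Ω u v = extDer 𝓘(ℝ, E) β x u v := fun u v => extDerL_apply _ _ _ _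
    let K : Submodule ℝ E := LinearMap.ker b.toLinearMap
    let Φ : K →ₗ[ℝ] Module.Dual ℝ K := LinearMap.mk₂ ℝ (fun u v => Ω (u : E) (v : E))
      (fun a b c => by simp) (fun a b c => by simp) (fun a b c => by simp) (fun a b c => by simp)
    have hinj : Function.Injective Φ := by
      rw [injective_iff_map_eq_zero]
      intro u hu
      apply Subtype.ext
      refine hc.nondeg x (u : E) u.2 fun v hv => ?_
      rw [← hΩ]
      exact DFunLike.congr_fun hu ⟨v, hv⟩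
    have hsurj : Function.Surjective Φ :=
      (LinearMap.injective_iff_surjective_of_finrank_eq_finrank
        (Subspace.dual_finrank_eq (K := ℝ) (V := K)).symm).1 hinj
    let dh : E →L[ℝ] ℝ := dForm 𝓘(ℝ, E) h x
    obtain ⟨Y, hY⟩ := hsurj ((h x)⁻¹ • (dh.toLinearMap.comp K.subtype))
    have hY' : ∀ v : E, b v = 0 → Ω (Y : E) v = (h x)⁻¹ * dh v := fun v hv => by
      exact DFunLike.congr_fun hY ⟨v, hv⟩
    have hx := (hpos x).ne'
    let r₀ : E := R x
    let y₀ : E := (Y : E)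
    have hbR : b r₀ = 1 := hR.unit x
    have hbY : b y₀ = 0 := Y.2
    have hΩR : ∀ v : E, Ω r₀ v = 0 := fun v => by rw [hΩ]; exact hR.kernel x v
    have hΩR' : ∀ v : E, Ω v r₀ = 0 := fun v => by
      rw [hΩ, extDer_antisymm']
      have := hR.kernel x v
      show - extDer 𝓘(ℝ, E) β x (R x) v = 0
      rw [this, neg_zero]
    have hdY : dh y₀ = 0 := by
      have h1 := hY' y₀ hbY
      have h2 : Ω y₀ y₀ = 0 := by
        have := extDer_antisymm' (β := β) x y₀ y₀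
        rw [hΩ]
        linarith
      rw [show Ω (Y : E) y₀ = 0 from h2] at h1
      rcases mul_eq_zero.1 h1.symm with h3 | h3
      · exact absurd h3 (inv_ne_zero hx)
      · exact h3
    refine ⟨((h x)⁻¹ • (r₀ + y₀) : E), ?_, fun v => ?_⟩
    · show h x * b ((h x)⁻¹ • (r₀ + y₀)) = 1
      rw [map_smul, map_add, hbR, hbY]
      simp [hx]
    · rw [extDer_smul hh hc.smooth]
      show dh ((h x)⁻¹ • (r₀ + y₀)) * b v - dh v * b ((h x)⁻¹ • (r₀ + y₀)) +
        h x * extDer 𝓘(ℝ, E) β x ((h x)⁻¹ • (r₀ + y₀) : E) v = 0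
      rw [← hΩ, map_smul, map_smul, map_smul, map_add, map_add, map_add, hbR, hbY, hdY]
      have h3 : Ω y₀ v = (h x)⁻¹ * (dh v - b v * dh r₀) := by
        have h4 := hY' ((show E from v) - b v • r₀) (by
          rw [map_sub, map_smul, hbR]; simp)
        rw [map_sub, map_smul, hΩR', map_sub, map_smul] at h4
        simpa using h4
      show (h x)⁻¹ * (dh r₀ + 0) * b v - dh v * ((h x)⁻¹ * (1 + 0)) +
        h x * ((h x)⁻¹ * (Ω r₀ v + Ω y₀ v)) = 0
      rw [hΩR, h3]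
      field_simp
      ring
  choose R' h1 h2 using key
  exact ⟨R', h1, h2⟩

end Pool.Agent.R775
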