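import Mathlib
import Pool.Agent.R775.W2

/-! Sums over the fibres of a covering. -/

open scoped Topology ContDiff Manifold
open Set Metric Bundle Pool.Agent.Helper186 Pool.Agent.H826R2.Wein

noncomputable section

namespace Pool.Agent.R775

set_option linter.unusedSectionVars false

universe u

variable {E : Type u} [NormedAddCommGroup E] [NormedSpace ℝ E] [FiniteDimensional ℝ E]
  {M : Type*} [TopologicalSpace M] [ChartedSpace E M] [IsManifold 𝓘(ℝ, E) ∞ M]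
  {P : Type*} [TopologicalSpace P] [ChartedSpace E P] [IsManifold 𝓘(ℝ, E) ∞ P]

/-- the sum over the fibres of `q` -/
def push (q : P → M) (ψ : P → ℝ) (y : M) : ℝ := ∑ᶠ z ∈ q ⁻¹' {y}, ψ z

variable {q : P → M} {Γ : Type*} [Group Γ] [MulAction Γ P] (hq : RegCover (E := E) q Γ)

include hq

lemma exists_rep {t : Set P} (ht : IsCompact t) (p₀ : P) :
    ∃ G : Finset Γ, InjOn (fun γ => γ • p₀) (G : Set Γ) ∧ (∀ γ ∈ G, γ • p₀ ∈ t) ∧
      ∀ z ∈ t, (∃ γ : Γ, γ • p₀ = z) → ∃ γ ∈ G, γ • p₀ = z := by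
  classical
  have hfin := hq.finite_fibre p₀ ht
  have hch : ∀ z : P, ∃ γ : Γ, (∃ γ' : Γ, γ' • p₀ = z) → γ • p₀ = z := fun z => by
    by_cases h : ∃ γ' : Γ, γ' • p₀ = z
    · obtain ⟨γ, hγ⟩ := h
      exact ⟨γ, fun _ => hγ⟩
    · exact ⟨1, fun h' => absurd h' h⟩
  choose g hg using hch
  refine ⟨hfin.toFinset.image g, ?_, ?_, ?_⟩
  · intro γ hγ γ' hγ' h
    simp only [Finset.coe_image, Finite.coe_toFinset, mem_image, mem_ofPred_eq] at hγ hγ'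
    obtain ⟨z, ⟨-, hz⟩, rfl⟩ := hγ
    obtain ⟨z', ⟨-, hz'⟩, rfl⟩ := hγ'
    have h1 := hg z hz
    have h2 := hg z' hz'
    simp only at h
    rw [h1, h2] at h
    rw [h]
  · intro γ hγ
    simp only [Finset.mem_image, Finite.mem_toFinset, mem_ofPred_eq] at hγ
    obtain ⟨z, ⟨hzt, hz⟩, rfl⟩ := hγ
    rw [hg z hz]
    exact hzt
  · intro z hz hz'
    refine ⟨g z, ?_, hg z hz'⟩
    simp only [Finset.mem_image, Finite.mem_toFinset, mem_ofPred_eq]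
    exact ⟨z, ⟨hz, hz'⟩, rfl⟩

lemma push_rep [T2Space M] [T2Space P] {t : Set P} (ht : IsCompact t) {ψ : P → ℝ}
    (hψ : ∀ z, z ∉ t → ψ z = 0) {p₀ : P} {G : Finset Γ} (hinj : InjOn (fun γ => γ • p₀) (G : Set Γ))
    (hG : ∀ z ∈ t, (∃ γ : Γ, γ • p₀ = z) → ∃ γ ∈ G, γ • p₀ = z) :
    ∀ᶠ p in 𝓝 p₀, push q ψ (q p) = ∑ γ ∈ G, ψ (γ • p) := by
  classical
  have hcont : ∀ γ : Γ, Continuous (fun x : P => γ • x) := fun γ => (hq.smooth γ).continuous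
  have hqc : Continuous q := hq.contMDiff.continuous
  have h1 : ∀ᶠ p in 𝓝 p₀, ∀ z ∈ t, q z = q p → ∃ γ ∈ G, γ • p = z := by
    apply ht.eventually_forall_of_forall_eventually
    intro z hz
    by_cases hqz : q z = q p₀
    · obtain ⟨γ, hγG, hγ⟩ := hG z hz ((hq.fibre p₀ z).1 hqz.symm)
      obtain ⟨Φ, hzΦ, hΦ⟩ := hq.diffeo z
      have hO : Φ.source ∈ 𝓝 z := Φ.open_source.mem_nhds hzΦ
      have h2 : ∀ᶠ p : P × P in 𝓝 (p₀, z), γ • p.1 ∈ Φ.source := by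
        have h3 : ContinuousAt (fun p : P × P => γ • p.1) (p₀, z) :=
          ((hcont γ).comp continuous_fst).continuousAt
        exact h3.eventually_mem (by simpa [hγ] using hO)
      have h4 : ∀ᶠ p : P × P in 𝓝 (p₀, z), p.2 ∈ Φ.source :=
        continuous_snd.continuousAt.eventually_mem (by simpa using hO)
      filter_upwards [h2, h4] with p hp1 hp2 hpq
      refine ⟨γ, hγG, ?_⟩
      have h5 : q (γ • p.1) = q p.2 := by rw [hq.proj_smul, hpq]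
      rw [hΦ hp1, hΦ hp2] at h5
      exact Φ.toPartialEquiv.injOn hp1 hp2 h5
    · have h2 : ∀ᶠ p : P × P in 𝓝 (p₀, z), q p.2 ≠ q p.1 := by
        have h3 : IsOpen {p : P × P | q p.2 ≠ q p.1} :=
          isOpen_ne_fun (hqc.comp continuous_snd) (hqc.comp continuous_fst)
        exact h3.mem_nhds hqz
      filter_upwards [h2] with p hp1 hp2
      exact absurd hp2 hp1
  have h2 : ∀ᶠ p in 𝓝 p₀, InjOn (fun γ => γ • p) (G : Set Γ) := by
    have h3 : ∀ γ ∈ G, ∀ γ' ∈ G, ∀ᶠ p in 𝓝 p₀, γ • p = γ' • p → γ = γ' := by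
      intro γ hγ γ' hγ'
      by_cases h : γ = γ'
      · exact Filter.Eventually.of_forall fun _ _ => h
      · have h4 : γ • p₀ ≠ γ' • p₀ := fun h5 => h (hinj hγ hγ' h5)
        have h5 : IsOpen {p : P | γ • p ≠ γ' • p} := isOpen_ne_fun (hcont γ) (hcont γ')
        filter_upwards [h5.mem_nhds h4] with p hp1 hp2
        exact absurd hp2 hp1
    have h4 : ∀ᶠ p in 𝓝 p₀, ∀ γ ∈ G, ∀ γ' ∈ G, γ • p = γ' • p → γ = γ' := by
      rw [Filter.eventually_all_finset]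
      intro γ hγ
      rw [Filter.eventually_all_finset]
      intro γ' hγ'
      exact h3 γ hγ γ' hγ'
    filter_upwards [h4] with p hp γ hγ γ' hγ' h
    exact hp γ hγ γ' hγ' h
  filter_upwards [h1, h2] with p hp1 hp2
  unfold push
  rw [← Finset.sum_image (f := ψ) (g := fun γ => γ • p) hp2]
  apply finsum_mem_eq_sum_of_inter_support_eq
  ext z
  simp only [mem_inter_iff, mem_preimage, mem_singleton_iff, Function.mem_support, ne_eq,
    Finset.coe_image, mem_image, Finset.mem_coe, and_congr_left_iff]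
  intro hz
  have hzt : z ∈ t := by
    by_contra h
    exact hz (hψ z h)
  constructor
  · intro h
    exact hp1 z hzt h
  · rintro ⟨γ, -, rfl⟩
    exact hq.proj_smul γ p

/-- a function on the base is smooth if its pull back is -/
lemma smoothAt_of_comp {f : M → ℝ} {p : P} (h : ContMDiffAt 𝓘(ℝ, E) 𝓘(ℝ, ℝ) ∞ (f ∘ q) p) :
    ContMDiffAt 𝓘(ℝ, E) 𝓘(ℝ, ℝ) ∞ f (q p) := by
  obtain ⟨Φ, hp, hΦ⟩ := hq.diffeo p
  have h1 : q p = Φ p := hΦ hp
  have hy : Φ p ∈ Φ.target := Φ.toPartialEquiv.map_source hp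
  have h2 : ContMDiffAt 𝓘(ℝ, E) 𝓘(ℝ, E) ∞ Φ.symm (Φ p) :=
    (Φ.contMDiffOn_invFun).contMDiffAt (Φ.open_target.mem_nhds hy)
  have h3 : Φ.symm (Φ p) = p := Φ.toPartialEquiv.left_inv hp
  have h4 : ContMDiffAt 𝓘(ℝ, E) 𝓘(ℝ, ℝ) ∞ ((f ∘ q) ∘ Φ.symm) (Φ p) :=
    ContMDiffAt.comp (I' := 𝓘(ℝ, E)) (Φ p) (g := f ∘ q) (f := Φ.symm) (by rw [h3]; exact h) h2
  rw [h1]
  refine h4.congr_of_eventuallyEq ?_
  filter_upwards [Φ.open_target.mem_nhds hy] with y hy'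
  have h5 : Φ.symm y ∈ Φ.source := Φ.toPartialEquiv.map_target hy'
  show f y = f (q (Φ.symm y))
  rw [hΦ h5]
  congr 1
  exact (Φ.toPartialEquiv.right_inv hy').symm

lemma contMDiff_push [T2Space M] [T2Space P] {t : Set P} (ht : IsCompact t) {ψ : P → ℝ}
    (hψ : ∀ z, z ∉ t → ψ z = 0) (hs : ContMDiff 𝓘(ℝ, E) 𝓘(ℝ, ℝ) ∞ ψ) :
    ContMDiff 𝓘(ℝ, E) 𝓘(ℝ, ℝ) ∞ (push q ψ) := by
  intro y
  obtain ⟨p, rfl⟩ := hq.surj y
  apply smoothAt_of_comp hq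
  obtain ⟨G, hinj, -, hG⟩ := exists_rep hq ht p
  have h1 := push_rep hq ht hψ hinj hG
  have h2 : ContMDiffAt 𝓘(ℝ, E) 𝓘(ℝ, ℝ) ∞ (fun x => ∑ γ ∈ G, ψ (γ • x)) p := by
    have h3 : ∀ γ ∈ G, ContMDiffAt 𝓘(ℝ, E) 𝓘(ℝ, ℝ) ∞ (fun x => ψ (γ • x)) p := fun γ _ =>
      (hs.comp (hq.smooth γ)).contMDiffAt
    exact ContMDiffAt.sum h3
  exact h2.congr_of_eventuallyEq h1

end Pool.Agent.R775
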