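import Mathlib
import Pool.Agent.R775.W3
import Pool.Agent.TH607.Fx.Red

/-! Closed Reeb orbits after a small perturbation. -/

open scoped Topology ContDiff Manifold
open Set Metric Bundle Pool.Agent.Helper186 Pool.Agent.H826R2.Wein Pool.Agent.TH607

noncomputable section

namespace Pool.Agent.R775

set_option linter.unusedSectionVars false

universe u

variable {E : Type u} [NormedAddCommGroup E] [NormedSpace ℝ E] [FiniteDimensional ℝ E]
  {M : Type*} [TopologicalSpace M] [ChartedSpace E M] [IsManifold 𝓘(ℝ, E) ∞ M]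
  {P : Type*} [TopologicalSpace P] [ChartedSpace E P] [IsManifold 𝓘(ℝ, E) ∞ P]

section orbit

variable {β : (x : P) → TangentSpace 𝓘(ℝ, E) x →L[ℝ] ℝ} {m : ℕ} (A : TS β m)

/-- the orbits of the points of `C` -/
def sat (C : Set P) : Set P := {y | ∃ θ, ∃ z ∈ C, A.act θ z = y}

lemma act_fract (θ : Fin m → ℝ) (x : P) :
    A.act (fun i => Int.fract (θ i)) x = A.act θ x := by
  have h1 : θ = (fun i => Int.fract (θ i)) + fun i => ((⌊θ i⌋ : ℤ) : ℝ) := by
    ext i
    exact (Int.fract_add_floor (θ i)).symm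
  conv_rhs => rw [h1, A.add, A.period]

lemma isCompact_sat {C : Set P} (hC : IsCompact C) : IsCompact (sat A C) := by
  have h1 : sat A C = (fun p : (Fin m → ℝ) × P => A.act p.1 p.2) '' (Icc 0 1 ×ˢ C) := by
    ext y
    constructor
    · rintro ⟨θ, z, hz, rfl⟩
      refine ⟨(fun i => Int.fract (θ i), z), ⟨⟨fun i => Int.fract_nonneg _,
        fun i => (Int.fract_lt_one _).le⟩, hz⟩, act_fract A θ z⟩
    · rintro ⟨⟨θ, z⟩, ⟨-, hz⟩, rfl⟩
      exact ⟨θ, z, hz, rfl⟩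
  rw [h1]
  exact (isCompact_Icc.prod hC).image A.smooth.continuous

lemma act_neg_act (θ : Fin m → ℝ) (x : P) : A.act (-θ) (A.act θ x) = x := by
  rw [← A.add, neg_add_cancel, A.zero]

lemma sat_act {C : Set P} {y : P} (hy : y ∈ sat A C) (θ : Fin m → ℝ) : A.act θ y ∈ sat A C := by
  obtain ⟨θ', z, hz, rfl⟩ := hy
  exact ⟨θ + θ', z, hz, A.add _ _ _⟩

lemma sat_of_act {C : Set P} {y : P} {θ : Fin m → ℝ} (hy : A.act θ y ∈ sat A C) : y ∈ sat A C := by
  have := sat_act A hy (-θ)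
  rwa [act_neg_act] at this

lemma self_mem_sat {C : Set P} {y : P} (hy : y ∈ C) : y ∈ sat A C := ⟨0, y, hy, A.zero y⟩

lemma H_sat {x₀ : P} {y : P} (hy : y ∈ sat A {x₀}) (κ : Fin m → ℝ) : A.H κ y = A.H κ x₀ := by
  obtain ⟨θ, z, hz, rfl⟩ := hy
  rw [mem_singleton_iff.1 hz, A.H_act]

variable {q : P → M} {Γ : Type*} [Group Γ] [MulAction Γ P]

/-- a compact neighbourhood of a torus orbit which meets the translates of the orbit only in the
orbit -/
lemma exists_nbhd [T2Space P] (hq : RegCover (E := E) q Γ)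
    (hnorm : ∀ γ : Γ, ∃ B : Matrix (Fin m) (Fin m) ℤ, ∀ (θ : Fin m → ℝ) (x : P),
      γ • A.act θ x = A.act ((B.map (Int.cast : ℤ → ℝ)).mulVec θ) (γ • x)) (x₀ : P) :
    ∃ t : Set P, IsCompact t ∧ sat A {x₀} ⊆ interior t ∧
      ∀ y ∈ t, (∃ γ : Γ, γ⁻¹ • y ∈ sat A {x₀}) → y ∈ sat A {x₀} := by
  have : LocallyCompactSpace P := ChartedSpace.locallyCompactSpace E P
  have hO : IsCompact (sat A {x₀}) := isCompact_sat A isCompact_singleton
  obtain ⟨C, hC, hOC⟩ := exists_compact_superset hO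
  have hC' := isCompact_sat A hC
  have hfin := hq.finite_fibre x₀ hC'
  set Z : Set P := ⋃ z ∈ {z ∈ {y ∈ sat A C | ∃ γ : Γ, γ • x₀ = y} | z ∉ sat A {x₀}},
    sat A {z} with hZ
  have hZc : IsCompact Z := by
    refine (hfin.subset ?_).isCompact_biUnion fun z _ => isCompact_sat A isCompact_singleton
    exact fun z hz => hz.1
  have hU : IsOpen (interior C \ Z) := isOpen_interior.sdiff hZc.isClosed
  have hOU : sat A {x₀} ⊆ interior C \ Z := by
    intro y hy
    refine ⟨hOC hy, fun hyZ => ?_⟩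
    simp only [hZ, mem_iUnion] at hyZ
    obtain ⟨z, ⟨-, hz⟩, θ, z', hz', hzy⟩ := hyZ
    rw [mem_singleton_iff.1 hz'] at hzy
    apply hz
    rw [← hzy] at hy
    exact sat_of_act A hy
  obtain ⟨t, ht, hOt, htU⟩ := exists_compact_between hO hU hOU
  refine ⟨t, ht, hOt, ?_⟩
  rintro y hy ⟨γ, hγ⟩
  obtain ⟨θ, z, hz, hzy⟩ := hγ
  rw [mem_singleton_iff.1 hz] at hzy
  obtain ⟨B, hB⟩ := hnorm γ
  have h1 : y = A.act ((B.map (Int.cast : ℤ → ℝ)).mulVec θ) (γ • x₀) := by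
    rw [← hB, hzy, smul_inv_smul]
  by_contra hno
  have h2 : γ • x₀ ∉ sat A {x₀} := by
    intro h
    apply hno
    rw [h1]
    exact sat_act A h _
  have h3 : γ • x₀ ∈ sat A C := by
    apply sat_of_act A (θ := (B.map (Int.cast : ℤ → ℝ)).mulVec θ)
    rw [← h1]
    exact self_mem_sat A (interior_subset (htU hy).1)
  apply (htU hy).2
  simp only [hZ, mem_iUnion]
  exact ⟨γ • x₀, ⟨⟨h3, γ, rfl⟩, h2⟩, _, _, rfl, h1.symm⟩

end orbit

end Pool.Agent.R775
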