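import Mathlib
import Pool.Agent.R775.W4

/-! Closed Reeb orbits after a small perturbation: the perturbing functions. -/

open scoped Topology ContDiff Manifold
open Set Metric Bundle Pool.Agent.Helper186 Pool.Agent.H826R2.Wein Pool.Agent.TH607

noncomputable section

namespace Pool.Agent.R775

set_option linter.unusedSectionVars false

universe u

variable {E : Type u} [NormedAddCommGroup E] [NormedSpace ℝ E] [FiniteDimensional ℝ E]
  {M : Type*} [TopologicalSpace M] [ChartedSpace E M] [IsManifold 𝓘(ℝ, E) ∞ M]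
  {P : Type*} [TopologicalSpace P] [ChartedSpace E P] [IsManifold 𝓘(ℝ, E) ∞ P]
  {β : (x : P) → TangentSpace 𝓘(ℝ, E) x →L[ℝ] ℝ} {m : ℕ} (A : TS β m)
  {q : P → M} {Γ : Type*} [Group Γ] [MulAction Γ P]

/-- a deck transformation with a fixed point fixes the whole torus orbit -/
lemma fix_orbit [T2Space P] (hq : RegCover (E := E) q Γ) {γ : Γ} {p : P} (hp : γ • p = p)
    (θ : Fin m → ℝ) : γ • A.act θ p = A.act θ p := by
  have hcont : Continuous (fun x : P => γ • x) := (hq.smooth γ).continuous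
  have hact : Continuous (fun θ => A.act θ p) := (A.smooth_left p).continuous
  set S : Set (Fin m → ℝ) := {θ | γ • A.act θ p = A.act θ p} with hS
  have hclosed : IsClosed S := isClosed_eq (hcont.comp hact) hact
  have hopen : IsOpen S := by
    rw [isOpen_iff_mem_nhds]
    intro θ₀ hθ₀
    have hθ : γ • A.act θ₀ p = A.act θ₀ p := hθ₀
    obtain ⟨Φ, hz, hΦ⟩ := hq.diffeo (A.act θ₀ p)
    have hO : Φ.source ∈ 𝓝 (A.act θ₀ p) := Φ.open_source.mem_nhds hz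
    have h1 : ∀ᶠ θ in 𝓝 θ₀, A.act θ p ∈ Φ.source := hact.continuousAt.eventually_mem hO
    have h2 : ∀ᶠ θ in 𝓝 θ₀, γ • A.act θ p ∈ Φ.source :=
      (hcont.comp hact).continuousAt.eventually_mem (by
        show Φ.source ∈ 𝓝 (γ • A.act θ₀ p)
        rw [hθ]; exact hO)
    filter_upwards [h1, h2] with θ ha hb
    have h3 : q (γ • A.act θ p) = q (A.act θ p) := hq.proj_smul _ _
    rw [hΦ ha, hΦ hb] at h3
    exact Φ.toPartialEquiv.injOn hb ha h3
  have h0 : (0 : Fin m → ℝ) ∈ S := by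
    show γ • A.act 0 p = A.act 0 p
    rw [A.zero, hp]
  have h1 : S = univ := IsClopen.eq_univ ⟨hclosed, hopen⟩ ⟨0, h0⟩
  have h2 : θ ∈ S := by rw [h1]; exact mem_univ θ
  exact h2

/-- **The perturbing functions.** -/
theorem exists_functions [T2Space M] [T2Space P] [SigmaCompactSpace P]
    (hq : RegCover (E := E) q Γ) (hN : A.Norm Γ) (hβ : SmoothForm β)
    {n : ℕ} {ι : Imm (E := E) P n} (𝒟 : Deck ι Γ) (x₀ : P) :
    ∃ (ℓ : ℕ) (B : Matrix (Fin m) (Fin m) ℤ) (g : Fin m → M → ℝ), 0 < ℓ ∧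
      (∀ i, ContMDiff 𝓘(ℝ, E) 𝓘(ℝ, ℝ) ∞ (g i)) ∧
      (∀ κ : Fin m → ℝ, ∀ p ∈ sat A {x₀},
        A.H ((B.map (Int.cast : ℤ → ℝ)).mulVec κ) p = ℓ * A.H κ x₀ ∧
        (dForm 𝓘(ℝ, E) (A.H κ) x₀ = 0 →
          dForm 𝓘(ℝ, E) (A.H ((B.map (Int.cast : ℤ → ℝ)).mulVec κ)) p = 0) ∧
        ∀ᶠ p' in 𝓝 p, ∑ i, κ i * g i (q p') =
          A.H ((B.map (Int.cast : ℤ → ℝ)).mulVec κ) p' -
          A.H ((B.map (Int.cast : ℤ → ℝ)).mulVec κ) p) := by
  classical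
  have : LocallyCompactSpace P := ChartedSpace.locallyCompactSpace E P
  obtain ⟨t, ht, hOt, htq⟩ := exists_nbhd A hq hN.norm x₀
  have hO : IsCompact (sat A {x₀}) := isCompact_sat A isCompact_singleton
  obtain ⟨χ, hχ1, hχ0, -⟩ := exists_contMDiffMap_one_nhds_of_subset_interior 𝓘(ℝ, E) (n := (⊤ : ℕ∞))
    hO.isClosed hOt
  obtain ⟨G, hinj, hGt, hG⟩ := exists_rep hq ht x₀
  have hx₀ : x₀ ∈ sat A {x₀} := self_mem_sat A rfl
  have hx₀t : x₀ ∈ t := interior_subset (hOt hx₀)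
  have hGne : G.Nonempty := by
    obtain ⟨γ, hγ, -⟩ := hG x₀ hx₀t ⟨1, one_smul _ _⟩
    exact ⟨γ, hγ⟩
  have hGO : ∀ γ ∈ G, ∀ p ∈ sat A {x₀}, γ • p ∈ sat A {x₀} := by
    rintro γ hγ p ⟨θ, z, hz, rfl⟩
    rw [mem_singleton_iff.1 hz]
    obtain ⟨B, hB⟩ := hN.norm γ
    rw [hB]
    apply sat_act
    apply htq _ (hGt γ hγ)
    exact ⟨γ, by rw [inv_smul_smul]; exact hx₀⟩
  have hinj' : ∀ p ∈ sat A {x₀}, InjOn (fun γ => γ • p) (G : Set Γ) := by
    rintro p ⟨θ, z, hz, rfl⟩ γ hγ γ' hγ' h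
    rw [mem_singleton_iff.1 hz] at h
    simp only at h
    apply hinj hγ hγ'
    have h1 : (γ'⁻¹ * γ) • A.act θ x₀ = A.act θ x₀ := by
      rw [mul_smul, h, inv_smul_smul]
    have h2 := fix_orbit A hq h1 (-θ)
    rw [act_neg_act, mul_smul, inv_smul_eq_iff] at h2
    exact h2
  have hG' : ∀ p ∈ sat A {x₀}, ∀ z ∈ t, (∃ γ : Γ, γ • p = z) → ∃ γ ∈ G, γ • p = z := by
    rintro p hp z hz ⟨g, rfl⟩
    have h1 : g • p ∈ sat A {x₀} := htq _ hz ⟨g, by rw [inv_smul_smul]; exact hp⟩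
    obtain ⟨θ, z', hz', rfl⟩ := hp
    rw [mem_singleton_iff.1 hz'] at h1 ⊢
    obtain ⟨B, hB⟩ := hN.norm g
    rw [hB] at h1
    have h2 : g • x₀ ∈ sat A {x₀} := sat_of_act A h1
    obtain ⟨γ, hγ, hγx⟩ := hG (g • x₀) (interior_subset (hOt h2)) ⟨g, rfl⟩
    refine ⟨γ, hγ, ?_⟩
    have h3 : (g⁻¹ * γ) • x₀ = x₀ := by rw [mul_smul, hγx, inv_smul_smul]
    have h4 := fix_orbit A hq h3 θ
    rw [mul_smul, inv_smul_eq_iff] at h4
    exact h4
  -- the matrices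
  choose Bm hBm hBH using fun γ : Γ => A.H_equiv 𝒟 hN γ⁻¹
  set B : Matrix (Fin m) (Fin m) ℤ := ∑ γ ∈ G, Bm γ with hB
  have hsum : ∀ (κ : Fin m → ℝ) (p : P),
      A.H ((B.map (Int.cast : ℤ → ℝ)).mulVec κ) p = ∑ γ ∈ G, A.H κ (γ • p) := by
    intro κ p
    have h1 : (B.map (Int.cast : ℤ → ℝ)).mulVec κ =
        ∑ γ ∈ G, ((Bm γ).map (Int.cast : ℤ → ℝ)).mulVec κ := by
      have h2 : B.map (Int.cast : ℤ → ℝ) = ∑ γ ∈ G, (Bm γ).map (Int.cast : ℤ → ℝ) := by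
        ext i j
        rw [hB, Matrix.map_apply, Matrix.sum_apply, Matrix.sum_apply]
        push_cast
        rfl
      rw [h2, Matrix.sum_mulVec]
    have hlin : ∀ s : Finset Γ, A.H (∑ γ ∈ s, ((Bm γ).map (Int.cast : ℤ → ℝ)).mulVec κ) p =
        ∑ γ ∈ s, A.H (((Bm γ).map (Int.cast : ℤ → ℝ)).mulVec κ) p := by
      intro s
      induction s using Finset.induction_on with
      | empty =>
        have := A.H_smul 0 0 p
        simpa using this
      | insert a s ha ih => rw [Finset.sum_insert ha, Finset.sum_insert ha, A.H_add, ih]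
    rw [h1, hlin]
    refine Finset.sum_congr rfl fun γ _ => ?_
    have h3 := hBH γ κ (γ • p)
    rw [inv_smul_smul] at h3
    exact h3
  have hHeq : ∀ (κ : Fin m → ℝ), A.H ((B.map (Int.cast : ℤ → ℝ)).mulVec κ) =
      fun p => ∑ γ ∈ G, A.H κ (γ • p) := fun κ => funext fun p => hsum κ p
  set ψ : Fin m → P → ℝ := fun i z => χ z * (A.H (Pi.single i 1) z - A.H (Pi.single i 1) x₀)
    with hψ
  have hψs : ∀ i, ContMDiff 𝓘(ℝ, E) 𝓘(ℝ, ℝ) ∞ (ψ i) := fun i =>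
    χ.contMDiff.mul ((A.smooth_H hβ _).sub contMDiff_const)
  have hψ0 : ∀ i, ∀ z, z ∉ t → ψ i z = 0 := fun i z hz => by
    simp only [hψ]
    rw [hχ0 z hz, zero_mul]
  refine ⟨G.card, B, fun i => push q (ψ i), Finset.card_pos.2 hGne,
    fun i => contMDiff_push hq ht (hψ0 i) (hψs i), ?_⟩
  intro κ p hp
  refine ⟨?_, ?_, ?_⟩
  · rw [hsum, Finset.sum_congr rfl fun γ hγ => H_sat A (hGO γ hγ p hp) κ, Finset.sum_const,
      nsmul_eq_mul]
  · intro hd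
    rw [hHeq]
    have h1 : ∀ γ ∈ G, HasMFDerivAt 𝓘(ℝ, E) 𝓘(ℝ, ℝ) (fun p => A.H κ (γ • p)) p
        (0 : TangentSpace 𝓘(ℝ, E) p →L[ℝ] ℝ) := by
      intro γ hγ
      have h2 : HasMFDerivAt 𝓘(ℝ, E) 𝓘(ℝ, ℝ) (A.H κ) (γ • p)
          (mfderiv 𝓘(ℝ, E) 𝓘(ℝ, ℝ) (A.H κ) (γ • p)) :=
        ((A.smooth_H hβ κ).mdifferentiableAt (by simp)).hasMFDerivAt
      have h3 : HasMFDerivAt 𝓘(ℝ, E) 𝓘(ℝ, E) (fun x : P => γ • x) p
          (mfderiv 𝓘(ℝ, E) 𝓘(ℝ, E) (fun x : P => γ • x) p) :=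
        ((hq.smooth γ).mdifferentiableAt (by simp)).hasMFDerivAt
      have h4 := HasMFDerivAt.comp p h2 h3
      refine h4.congr_mfderiv ?_
      obtain ⟨θ, z, hz, hzp⟩ := hGO γ hγ p hp
      rw [mem_singleton_iff.1 hz] at hzp
      have h5 : dForm 𝓘(ℝ, E) (A.H κ) (γ • p) = 0 := by
        rw [← hzp]
        exact A.crit_act hβ hd θ
      have h6 : mfderiv 𝓘(ℝ, E) 𝓘(ℝ, ℝ) (A.H κ) (γ • p) = 0 := h5
      rw [h6]
      exact ContinuousLinearMap.zero_comp _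
    have h7 : HasMFDerivAt 𝓘(ℝ, E) 𝓘(ℝ, ℝ) (fun p => ∑ γ ∈ G, A.H κ (γ • p)) p
        (0 : TangentSpace 𝓘(ℝ, E) p →L[ℝ] ℝ) := by
      have h8 : ∀ s : Finset Γ, s ⊆ G → HasMFDerivAt 𝓘(ℝ, E) 𝓘(ℝ, ℝ)
          (fun p => ∑ γ ∈ s, A.H κ (γ • p)) p (0 : TangentSpace 𝓘(ℝ, E) p →L[ℝ] ℝ) := by
        intro s
        induction s using Finset.induction_on with
        | empty =>
          intro _
          simp only [Finset.sum_empty]
          exact hasMFDerivAt_const 0 p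
        | insert a s ha ih =>
          intro hs
          have h9 := HasMFDerivAt.add (h1 a (hs (Finset.mem_insert_self a s)))
            (ih ((Finset.subset_insert a s).trans hs))
          have h10 : (fun p => ∑ γ ∈ insert a s, A.H κ (γ • p)) =
              (fun p => A.H κ (a • p)) + fun p => ∑ γ ∈ s, A.H κ (γ • p) := by
            ext1 z
            rw [Finset.sum_insert ha]
            rfl
          rw [h10]
          refine h9.congr_mfderiv ?_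
          exact add_zero _
      exact h8 G subset_rfl
    exact h7.mfderiv
  · have h1 : ∀ i, ∀ᶠ p' in 𝓝 p, push q (ψ i) (q p') = ∑ γ ∈ G, ψ i (γ • p') := fun i =>
      push_rep hq ht (hψ0 i) (hinj' p hp) (hG' p hp)
    have h2 : ∀ᶠ p' in 𝓝 p, ∀ γ ∈ G, χ (γ • p') = 1 := by
      rw [Filter.eventually_all_finset]
      intro γ hγ
      have h3 : ∀ᶠ z in 𝓝 (γ • p), χ z = 1 :=
        (Filter.Eventually.filter_mono (nhds_le_nhdsSet (hGO γ hγ p hp)) hχ1)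
      exact (hq.smooth γ).continuous.continuousAt.eventually h3
    filter_upwards [Filter.eventually_all.2 h1, h2] with p' ha hb
    rw [hsum, hsum, Finset.sum_congr rfl fun γ hγ => H_sat A (hGO γ hγ p hp) κ]
    simp_rw [ha]
    have h4 : ∀ i, ∑ γ ∈ G, ψ i (γ • p') =
        ∑ γ ∈ G, (A.H (Pi.single i 1) (γ • p') - A.H (Pi.single i 1) x₀) := fun i =>
      Finset.sum_congr rfl fun γ hγ => by simp only [hψ]; rw [hb γ hγ, one_mul]
    simp_rw [h4, Finset.mul_sum]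
    rw [Finset.sum_comm, ← Finset.sum_sub_distrib]
    refine Finset.sum_congr rfl fun γ _ => ?_
    have hlin : ∀ z : P, A.H κ z = ∑ i, κ i * A.H (Pi.single i 1) z := fun z =>
      lin_expand (m := m) ⟨⟨fun κ => A.H κ z, fun a b => A.H_add a b z⟩,
        fun c a => A.H_smul c a z⟩ κ
    rw [hlin (γ • p'), hlin x₀, ← Finset.sum_sub_distrib]
    exact Finset.sum_congr rfl fun i _ => by ring

end Pool.Agent.R775
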