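import Mathlib
import Pool.Agent.R775.W5

/-! Closed Reeb orbits after a small perturbation: main step. -/

open scoped Topology ContDiff Manifold
open Set Metric Bundle Pool.Agent.Helper186 Pool.Agent.H826R2.Wein Pool.Agent.TH607

noncomputable section

namespace Pool.Agent.R775

set_option linter.unusedSectionVars false

universe u

variable {E : Type u} [NormedAddCommGroup E] [NormedSpace ℝ E] [FiniteDimensional ℝ E]
  {M : Type*} [TopologicalSpace M] [ChartedSpace E M] [IsManifold 𝓘(ℝ, E) ∞ M]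
  {P : Type*} [TopologicalSpace P] [ChartedSpace E P] [IsManifold 𝓘(ℝ, E) ∞ P]
  {m : ℕ} {q : P → M} {Γ : Type*} [Group Γ] [MulAction Γ P]

/-- uniqueness of the Reeb vector -/
lemma reeb_unique {β : (x : P) → TangentSpace 𝓘(ℝ, E) x →L[ℝ] ℝ} (hc : IsContact β)
    {R : (x : P) → TangentSpace 𝓘(ℝ, E) x} (hR : IsReeb β R) {x : P}
    {r : TangentSpace 𝓘(ℝ, E) x} (h1 : β x r = 1) (h2 : ∀ v, extDer 𝓘(ℝ, E) β x r v = 0) :
    r = R x := by
  rw [← sub_eq_zero]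
  apply hc.nondeg
  · rw [map_sub, h1, hR.unit, sub_self]
  · intro v _
    have h3 : extDerL 𝓘(ℝ, E) β x (r - R x) v =
        extDerL 𝓘(ℝ, E) β x r v - extDerL 𝓘(ℝ, E) β x (R x) v := by
      rw [map_sub]; rfl
    rw [extDerL_apply, extDerL_apply, extDerL_apply, hR.kernel, h2, sub_zero] at h3
    exact h3

theorem exists_perturbation [T2Space M] [CompactSpace M] [T2Space P] [SigmaCompactSpace P]
    {α : (x : M) → TangentSpace 𝓘(ℝ, E) x →L[ℝ] ℝ} (hα : IsContact α)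
    {R : (x : M) → TangentSpace 𝓘(ℝ, E) x} (hR : IsReeb α R)
    (hq : RegCover (E := E) q Γ) (A : TS (pullForm 𝓘(ℝ, E) 𝓘(ℝ, E) q α) m) (hN : A.Norm Γ)
    (x₀ : P) (w : Fin m → ℝ) (hw : A.H w x₀ = 1) (hd : dForm 𝓘(ℝ, E) (A.H w) x₀ = 0) :
    ∃ g : Fin m → M → ℝ, (∀ i, ContMDiff 𝓘(ℝ, E) 𝓘(ℝ, ℝ) ∞ (g i)) ∧
      ∀ ε > (0:ℝ), ∃ δ : Fin m → ℝ, (∀ i, |δ i| < ε) ∧ (∀ y, 0 < 1 + ∑ i, δ i * g i y) ∧
        ∃ R' : (x : M) → TangentSpace 𝓘(ℝ, E) x,
          IsReeb (fun y => (1 + ∑ i, δ i * g i y) • α y) R' ∧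
          ∃ (c : ℝ → M) (T : ℝ), 0 < T ∧ IsMIntegralCurve (I := 𝓘(ℝ, E)) c R' ∧
            ∀ t, c (t + T) = c t := by
  obtain ⟨n, ι, ⟨𝒟⟩⟩ := hq.exists_deck
  have hcP : IsContact (pullForm 𝓘(ℝ, E) 𝓘(ℝ, E) q α) := hq.isContact_pull hα
  obtain ⟨ℓ, B, g, hℓ, hg, hB⟩ := exists_functions A hq hN hcP.smooth 𝒟 x₀
  refine ⟨g, hg, fun ε hε => ?_⟩
  set Br : Matrix (Fin m) (Fin m) ℝ := B.map (Int.cast : ℤ → ℝ) with hBr
  have hℓr : (0:ℝ) < ℓ := by exact_mod_cast hℓ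
  have hm : 0 < m := by
    rcases Nat.eq_zero_or_pos m with h | h
    · exfalso
      subst h
      have h0 : w = 0 := Subsingleton.elim _ _
      have := A.H_smul 0 0 x₀
      rw [zero_smul, zero_mul, ← h0, hw] at this
      exact one_ne_zero this
    · exact h
  -- a bound for the functions
  obtain ⟨C, hC⟩ : ∃ C : ℝ, ∀ y, ∑ i, |g i y| ≤ C := by
    have hc : Continuous fun y => ∑ i, |g i y| :=
      continuous_finsetSum _ fun i _ => (hg i).continuous.abs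
    obtain ⟨C, hC⟩ := (isCompact_range hc).bddAbove
    exact ⟨C, fun y => hC (mem_range_self y)⟩
  -- the choice of `v`
  set η : ℝ := min ε (1 / (1 + |C|)) with hη
  have hηpos : 0 < η := lt_min hε (by positivity)
  have hHc : Continuous fun u : Fin m → ℝ => A.H u x₀ := by
    let L : (Fin m → ℝ) →ₗ[ℝ] ℝ := ⟨⟨fun κ => A.H κ x₀, fun a b => A.H_add a b x₀⟩,
      fun c a => A.H_smul c a x₀⟩
    exact L.continuous_of_finiteDimensional
  have hO : {u : Fin m → ℝ | 0 < A.H u x₀ ∧ ‖(A.H u x₀)⁻¹ • u - w‖ < η} ∈ 𝓝 w := by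
    have h1 : ∀ᶠ u in 𝓝 w, 0 < A.H u x₀ :=
      continuousAt_const.eventually_lt hHc.continuousAt (by rw [hw]; exact one_pos)
    have h2 : ContinuousAt (fun u : Fin m → ℝ => ‖(A.H u x₀)⁻¹ • u - w‖) w := by
      have h3 : ContinuousAt (fun u : Fin m → ℝ => (A.H u x₀)⁻¹) w :=
        hHc.continuousAt.inv₀ (by rw [hw]; exact one_ne_zero)
      exact ((h3.smul continuousAt_id).sub continuousAt_const).norm
    have h3 : ∀ᶠ u in 𝓝 w, ‖(A.H u x₀)⁻¹ • u - w‖ < η := by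
      apply h2.eventually_lt continuousAt_const
      rw [hw]
      simpa using hηpos
    filter_upwards [h1, h3] with u ha hb
    exact ⟨ha, hb⟩
  obtain ⟨k, s', hk, hs', hs'O⟩ := exists_int_mem hm hO
  set kr : Fin m → ℝ := fun i => (k i : ℝ) with hkr
  set s : ℝ := (A.H (s' • kr) x₀)⁻¹ * s' with hs
  set v : Fin m → ℝ := s • kr with hv
  have hspos : 0 < s := mul_pos (inv_pos.2 hs'O.1) hs'
  have hv' : v = (A.H (s' • kr) x₀)⁻¹ • (s' • kr) := by rw [hv, hs, mul_smul]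
  have hvw : ‖v - w‖ < η := by rw [hv']; exact hs'O.2
  have hHv : A.H v x₀ = 1 := by
    rw [hv', A.H_smul]
    exact inv_mul_cancel₀ hs'O.1.ne'
  -- the perturbation
  set δ : Fin m → ℝ := -((ℓ:ℝ)⁻¹ • (v - w)) with hδ
  have hδi : ∀ i, |δ i| < η := fun i => by
    have h1 : |δ i| = (ℓ:ℝ)⁻¹ * |(v - w) i| := by
      rw [hδ, Pi.neg_apply, abs_neg, Pi.smul_apply, smul_eq_mul, abs_mul,
        abs_of_pos (inv_pos.2 hℓr)]
    have h2 : |(v - w) i| ≤ ‖v - w‖ := by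
      have := norm_le_pi_norm (v - w) i
      rwa [Real.norm_eq_abs] at this
    have h3 : (ℓ:ℝ)⁻¹ ≤ 1 := by
      apply inv_le_one_of_one_le₀
      exact_mod_cast hℓ
    rw [h1]
    calc (ℓ:ℝ)⁻¹ * |(v - w) i| ≤ 1 * |(v - w) i| :=
          mul_le_mul_of_nonneg_right h3 (abs_nonneg _)
      _ ≤ ‖v - w‖ := by rw [one_mul]; exact h2
      _ < η := hvw
  have hpos : ∀ y, 0 < 1 + ∑ i, δ i * g i y := by
    intro y
    have h1 : |∑ i, δ i * g i y| ≤ η * C := by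
      refine (Finset.abs_sum_le_sum_abs _ _).trans ?_
      have h2 : ∑ i, |δ i * g i y| ≤ ∑ i, η * |g i y| := by
        refine Finset.sum_le_sum fun i _ => ?_
        rw [abs_mul]
        exact mul_le_mul_of_nonneg_right (hδi i).le (abs_nonneg _)
      refine h2.trans ?_
      rw [← Finset.mul_sum]
      exact mul_le_mul_of_nonneg_left (hC y) hηpos.le
    have h2 : η * C < 1 := by
      have h3 : η ≤ 1 / (1 + |C|) := min_le_right _ _
      have h4 : η * C ≤ η * |C| := mul_le_mul_of_nonneg_left (le_abs_self C) hηpos.le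
      have h5 : η * |C| ≤ 1 / (1 + |C|) * |C| := mul_le_mul_of_nonneg_right h3 (abs_nonneg _)
      have h6 : 1 / (1 + |C|) * |C| < 1 := by
        rw [one_div, inv_mul_lt_iff₀ (by positivity)]
        linarith [abs_nonneg C]
      linarith
    have := abs_lt.1 (h1.trans_lt h2)
    linarith [this.1]
  set h : M → ℝ := fun y => 1 + ∑ i, δ i * g i y with hh
  have hhs : ContMDiff 𝓘(ℝ, E) 𝓘(ℝ, ℝ) ∞ h := by
    apply ContMDiff.add contMDiff_const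
    exact contMDiff_finsetSum fun i _ => contMDiff_const.mul (hg i)
  obtain ⟨R', hR'⟩ := exists_reeb_smul hhs hpos hα hR
  refine ⟨δ, fun i => (hδi i).trans_le (min_le_left _ _), hpos, R', hR', ?_⟩
  have hcon : IsContact (fun y => h y • α y) := isContact_smul hhs hpos hα
  -- upstairs
  have hbet' : pullForm 𝓘(ℝ, E) 𝓘(ℝ, E) q (fun y => h y • α y) = fun x => (h ∘ q) x • (pullForm 𝓘(ℝ, E) 𝓘(ℝ, E) q α) x := by
    ext1 x
    refine ContinuousLinearMap.ext fun u => ?_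
    rfl
  have hconP := hq.isContact_pull hcon
  have hRP := hq.isReeb_lift hcon hR'
  have hhqs : ContMDiff 𝓘(ℝ, E) 𝓘(ℝ, ℝ) ∞ (h ∘ q) := hhs.comp hq.contMDiff
  set vb : Fin m → ℝ := (ℓ:ℝ)⁻¹ • Br.mulVec v with hvb
  set wb : Fin m → ℝ := (ℓ:ℝ)⁻¹ • Br.mulVec w with hwb
  have hκ : Br.mulVec δ = wb - vb := by
    rw [hδ, Matrix.mulVec_neg, Matrix.mulVec_smul, Matrix.mulVec_sub, smul_sub, neg_sub]
  have hXsub : ∀ (a b : Fin m → ℝ) (p : P), A.X (a - b) p = A.X a p - A.X b p := fun a b p => by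
    have h1 := A.X_add (a - b) b p
    rw [sub_add_cancel] at h1
    rw [h1, add_sub_cancel_right]
  have key : ∀ p ∈ sat A {x₀}, liftField hq R' p = A.X vb p := by
    intro p hp
    obtain ⟨hv1, -, -⟩ := hB v p hp
    obtain ⟨-, hw2, -⟩ := hB w p hp
    obtain ⟨-, -, hδ3⟩ := hB δ p hp
    have hHvb : A.H vb p = 1 := by
      rw [hvb, A.H_smul, hv1, hHv, mul_one, inv_mul_cancel₀ hℓr.ne']
    have hwb0 : ∀ u : E, extDer 𝓘(ℝ, E) (pullForm 𝓘(ℝ, E) 𝓘(ℝ, E) q α) p (A.X wb p) u = 0 := by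
      intro u
      have h1 := A.dH hcP.smooth (Br.mulVec w) p u
      rw [hw2 hd] at h1
      have h2 : (0 : TangentSpace 𝓘(ℝ, E) p →L[ℝ] ℝ) u = 0 := rfl
      rw [h2] at h1
      rw [hwb, A.X_smul]
      have h3 : extDerL 𝓘(ℝ, E) (pullForm 𝓘(ℝ, E) 𝓘(ℝ, E) q α) p ((ℓ:ℝ)⁻¹ • A.X (Br.mulVec w) p) u =
        (ℓ:ℝ)⁻¹ * extDerL 𝓘(ℝ, E) (pullForm 𝓘(ℝ, E) 𝓘(ℝ, E) q α) p (A.X (Br.mulVec w) p) u := by
        rw [map_smul]; rfl
      rw [extDerL_apply, extDerL_apply] at h3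
      rw [h3]
      have h4 : extDer 𝓘(ℝ, E) (pullForm 𝓘(ℝ, E) 𝓘(ℝ, E) q α) p (A.X (Br.mulVec w) p) u = 0 := by linarith
      rw [h4, mul_zero]
    have hhq : ∀ᶠ p' in 𝓝 p, (h ∘ q) p' = 1 + (A.H (wb - vb) p' - A.H (wb - vb) p) := by
      filter_upwards [hδ3] with p' hp'
      show 1 + ∑ i, δ i * g i (q p') = _
      rw [hp', hκ]
    have hhp : h (q p) = 1 := by
      have := hhq.self_of_nhds
      rw [sub_self, add_zero] at this
      exact this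
    have hdh : ∀ u : E, dForm 𝓘(ℝ, E) (h ∘ q) p u = extDer 𝓘(ℝ, E) (pullForm 𝓘(ℝ, E) 𝓘(ℝ, E) q α) p (A.X vb p) u := by
      intro u
      have h1 : HasMFDerivAt 𝓘(ℝ, E) 𝓘(ℝ, ℝ) (fun p' => 1 + (A.H (wb - vb) p' - A.H (wb - vb) p)) p
          (dForm 𝓘(ℝ, E) (A.H (wb - vb)) p) := by
        have h2 : HasMFDerivAt 𝓘(ℝ, E) 𝓘(ℝ, ℝ) (A.H (wb - vb)) p
            (dForm 𝓘(ℝ, E) (A.H (wb - vb)) p) :=
          ((A.smooth_H hcP.smooth _).mdifferentiableAt (by simp)).hasMFDerivAt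
        have h3 := HasMFDerivAt.add (hasMFDerivAt_const (I := 𝓘(ℝ, E)) (1:ℝ) p)
          (HasMFDerivAt.sub h2 (hasMFDerivAt_const (I := 𝓘(ℝ, E)) (A.H (wb - vb) p) p))
        refine h3.congr_mfderiv ?_
        refine (zero_add _).trans ?_
        exact sub_zero _
      have h4 := (h1.congr_of_eventuallyEq hhq).mfderiv
      have h5 : dForm 𝓘(ℝ, E) (h ∘ q) p u = dForm 𝓘(ℝ, E) (A.H (wb - vb)) p u :=
        DFunLike.congr_fun h4 u
      rw [h5, A.dH hcP.smooth, hXsub]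
      have h6 : extDerL 𝓘(ℝ, E) (pullForm 𝓘(ℝ, E) 𝓘(ℝ, E) q α) p (A.X wb p - A.X vb p) u =
        extDerL 𝓘(ℝ, E) (pullForm 𝓘(ℝ, E) 𝓘(ℝ, E) q α) p (A.X wb p) u - extDerL 𝓘(ℝ, E) (pullForm 𝓘(ℝ, E) 𝓘(ℝ, E) q α) p (A.X vb p) u := by
        rw [map_sub]; rfl
      rw [extDerL_apply, extDerL_apply, extDerL_apply, hwb0 u] at h6
      rw [h6]
      ring
    symm
    apply reeb_unique hconP hRP
    · show h (q p) * (pullForm 𝓘(ℝ, E) 𝓘(ℝ, E) q α) p (A.X vb p) = 1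
      rw [hhp, one_mul]
      exact hHvb
    · intro u
      rw [hbet', extDer_smul hhqs hcP.smooth, hdh, hdh]
      have h1 : extDer 𝓘(ℝ, E) (pullForm 𝓘(ℝ, E) 𝓘(ℝ, E) q α) p (A.X vb p) (A.X vb p) = 0 := by
        have := extDer_antisymm' (β := (pullForm 𝓘(ℝ, E) 𝓘(ℝ, E) q α)) p (A.X vb p) (A.X vb p)
        linarith
      have h2 : (pullForm 𝓘(ℝ, E) 𝓘(ℝ, E) q α) p (A.X vb p) = 1 := hHvb
      rw [h1, h2]
      show 0 * (pullForm 𝓘(ℝ, E) 𝓘(ℝ, E) q α) p u - extDer 𝓘(ℝ, E) (pullForm 𝓘(ℝ, E) 𝓘(ℝ, E) q α) p (A.X vb p) u * 1 + h (q p) * _ = 0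
      rw [hhp]
      ring
  apply hq.closed_proj
  have hmem : ∀ τ : ℝ, A.fam vb (τ, x₀) ∈ sat A {x₀} := fun τ => ⟨τ • vb, x₀, rfl, rfl⟩
  refine ⟨fun τ => A.fam vb (τ, x₀), ℓ / s, by positivity, ?_, ?_⟩
  · intro τ
    have h1 := A.integral vb x₀ τ
    refine h1.congr_mfderiv ?_
    refine ContinuousLinearMap.ext fun r => ?_
    show r • A.X vb (A.fam vb (τ, x₀)) = r • liftField hq R' (A.fam vb (τ, x₀))
    rw [key _ (hmem τ)]
  · intro τ
    simp only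
    rw [A.fam_add]
    congr 1
    have h1 : A.fam vb ((ℓ:ℝ) / s, x₀) = x₀ := by
      show A.act (((ℓ:ℝ) / s) • vb) x₀ = x₀
      have h2 : ((ℓ:ℝ) / s) • vb = fun i => ((B.mulVec k i : ℤ) : ℝ) := by
        rw [hvb, hv, Matrix.mulVec_smul, smul_smul, smul_smul]
        have h3 : (ℓ:ℝ) / s * (ℓ:ℝ)⁻¹ * s = 1 := by field_simp
        rw [h3, one_smul]
        ext i
        simp [hBr, hkr, Matrix.mulVec, dotProduct]
      rw [h2]
      exact A.period _ _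
    rw [h1]

end Pool.Agent.R775
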