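import Mathlib
import Pool.Agent.R775.W7
import Pool.Agent.TH607.Fx.Fin

/-! Quasi-periodic Reeb orbits and closed Reeb orbits after small perturbations. -/

open scoped Topology ContDiff Manifold
open Set Metric Pool.Agent.Helper186 Pool.Agent.H826R2.WStmt Pool.Agent.TH607
  Pool.Agent.TH607.FxStmt

noncomputable section

namespace Pool.Agent.R775

set_option linter.unusedSectionVars false

universe u v w x

section defs

variable {E : Type*} [NormedAddCommGroup E] [NormedSpace ℝ E]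
  {M : Type*} [TopologicalSpace M] [ChartedSpace E M]

/-- the product of the function `h` and the one-form `α` -/
def scale (h : M → ℝ) (α : M → Cov E) (x : M) : Cov E :=
  (h x • (show E →L[ℝ] ℝ from α x) : E →L[ℝ] ℝ)

/-- `t ↦ F (t w)` is a quasi-periodic orbit of the vector field `R`: it is an orbit of `R`, and `F` is
a continuous function on `ℝ^m` which is periodic with respect to `ℤ^m` (a continuous map from the
torus `(ℝ/ℤ)^m`). -/
structure IsQuasiPeriodicOrbit (R : M → E) {m : ℕ} (F : (Fin m → ℝ) → M) (w : Fin m → ℝ) :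
    Prop where
  continuous : Continuous F
  period : ∀ (k : Fin m → ℤ) (θ : Fin m → ℝ), F (fun i => θ i + (k i : ℝ)) = F θ
  integral : IsMIntegralCurve (I := 𝓘(ℝ, E)) (fun t : ℝ => F (fun i => t * w i))
    (fun y => (R y : TangentSpace 𝓘(ℝ, E) y))

end defs

variable {E : Type u} [NormedAddCommGroup E] [NormedSpace ℝ E] [FiniteDimensional ℝ E]
  {M : Type v} [TopologicalSpace M] [ChartedSpace E M] [IsManifold 𝓘(ℝ, E) ∞ M]
  {P : Type w} [TopologicalSpace P] [ChartedSpace E P] [IsManifold 𝓘(ℝ, E) ∞ P]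
  {Γ : Type x} [Group Γ] [MulAction Γ P]

/-- quasi-periodic orbits, locally free case -/
theorem quasi_free [T2Space M] [CompactSpace M]
    (α : M → Cov E) (hα : IsContact α) (R : M → E) (hR : IsReeb α R)
    [Nonempty P] (q : P → M) (hq : IsQuotientMap E q Γ)
    {m : ℕ} (hm : 0 < m) (A : TorusAction (pull (E := E) q α) m) (hA : Normalises Γ A.act) :
    ∃ (x : P) (w : Fin m → ℝ),
      IsMIntegralCurve (I := 𝓘(ℝ, E)) (fun t : ℝ => q (A.act (t • w) x))
        (fun y => (R y : TangentSpace 𝓘(ℝ, E) y)) := by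
  have hq' : H826R2.Wein.RegCover (E := E) q Γ := hq.toWein
  obtain ⟨n, ι, ⟨𝒟⟩⟩ := hq'.exists_deck
  let B : H826R2.Wein.TAct (pullForm 𝓘(ℝ, E) 𝓘(ℝ, E) q (toForm α)) m := A.toWein
  have hN : B.Norm Γ := ⟨hq'.strict _, hA⟩
  have hcP := hq'.isContact_pull hα.toWein
  have hRP := hq'.isReeb_lift hα.toWein hR.toWein
  obtain ⟨κ, x, hκ, hx⟩ := exists_real_crit B hcP.smooth 𝒟 hN hm
  have ha := B.H_ne_zero_of_crit hcP hRP hκ hx
  set a := B.H κ x with hadef
  refine ⟨x, a⁻¹ • κ, ?_⟩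
  have hw : dForm 𝓘(ℝ, E) (B.H (a⁻¹ • κ)) x = 0 := by
    rw [B.dH_smul hcP.smooth, hx]
    exact smul_zero _
  have hHw : B.H (a⁻¹ • κ) x = 1 := by
    rw [B.H_smul]
    exact inv_mul_cancel₀ ha
  intro t
  have h1 := B.integral (a⁻¹ • κ) x t
  have h2 := HasMFDerivAt.comp t (g := q) (f := fun t : ℝ => B.fam (a⁻¹ • κ) (t, x))
    (hq'.mdiff _).hasMFDerivAt h1
  refine h2.congr_mfderiv ?_
  refine ContinuousLinearMap.ext fun (r : ℝ) => ?_
  have h3 := B.X_eq_of_crit hcP hRP (B.crit_act hcP.smooth hw (t • (a⁻¹ • κ)))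
  rw [B.H_act, hHw, one_smul] at h3
  show mfderiv 𝓘(ℝ, E) 𝓘(ℝ, E) q (B.fam (a⁻¹ • κ) (t, x))
    (r • B.X (a⁻¹ • κ) (B.fam (a⁻¹ • κ) (t, x))) = r • R (q (B.fam (a⁻¹ • κ) (t, x)))
  rw [map_smul]
  congr 1
  have h4 : B.X (a⁻¹ • κ) (B.fam (a⁻¹ • κ) (t, x)) =
      H826R2.Wein.liftField hq' (fun x => (R x : TangentSpace 𝓘(ℝ, E) x))
        (B.fam (a⁻¹ • κ) (t, x)) := h3
  rw [h4]
  exact hq'.liftField_spec _ _

/-- a quasi-periodic orbit gives a critical point of the contact Hamiltonian -/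
theorem crit_of_integral [T2Space M] [CompactSpace M]
    (α : M → Cov E) (hα : IsContact α) (R : M → E) (hR : IsReeb α R)
    (q : P → M) (hq : IsQuotientMap E q Γ)
    {m : ℕ} (A : TorusSymmetry (pull (E := E) q α) m)
    {x : P} {w : Fin m → ℝ} (h : IsMIntegralCurve (I := 𝓘(ℝ, E)) (fun t : ℝ => q (A.act (t • w) x))
        (fun y => (R y : TangentSpace 𝓘(ℝ, E) y))) :
    A.toTS.H w x = 1 ∧ dForm 𝓘(ℝ, E) (A.toTS.H w) x = 0 := by
  have hq' : H826R2.Wein.RegCover (E := E) q Γ := hq.toWein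
  let B : TS (pullForm 𝓘(ℝ, E) 𝓘(ℝ, E) q (toForm α)) m := A.toTS
  have hcP := hq'.isContact_pull hα.toWein
  have hRP := hq'.isReeb_lift hα.toWein hR.toWein
  have h1 := h 0
  have h0 : HasMFDerivAt 𝓘(ℝ, ℝ) 𝓘(ℝ, E) (fun t : ℝ => B.fam w (t, x)) 0
      ((1 : ℝ →L[ℝ] ℝ).smulRight (B.X w (B.fam w (0, x)))) := B.integral w x 0
  have h2 := HasMFDerivAt.comp (0:ℝ) (g := q) (f := fun t : ℝ => B.fam w (t, x))
    (hq'.mdiff _).hasMFDerivAt h0
  have h3 := hasMFDerivAt_unique h2 h1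
  have h4 : mfderiv 𝓘(ℝ, E) 𝓘(ℝ, E) q (B.fam w (0, x)) ((1:ℝ) • B.X w (B.fam w (0, x))) =
      (1:ℝ) • (R (q (A.act ((0:ℝ) • w) x)) : E) := DFunLike.congr_fun h3 (1:ℝ)
  rw [one_smul, one_smul] at h4
  have e0 : B.fam w (0, x) = x := B.fam_zero w x
  have h5 : ∀ z : P, z = x → (mfderiv 𝓘(ℝ, E) 𝓘(ℝ, E) q z (B.X w z) : E) = R (q z) →
      (mfderiv 𝓘(ℝ, E) 𝓘(ℝ, E) q x (B.X w x) : E) = R (q x) := by
    rintro z rfl h; exact h
  have h6 := h5 _ e0 h4
  have h7 : B.X w x = H826R2.Wein.liftField hq' (fun x => (R x : TangentSpace 𝓘(ℝ, E) x)) x := by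
    apply hq'.inj x
    rw [hq'.liftField_spec]
    exact h6
  constructor
  · show pullForm 𝓘(ℝ, E) 𝓘(ℝ, E) q (toForm α) x (B.X w x) = 1
    rw [h7]
    exact hRP.unit x
  · refine ContinuousLinearMap.ext fun u => ?_
    have h8 := B.dH hcP.smooth w x u
    rw [h7, hRP.kernel, neg_zero] at h8
    exact h8

/-- **Main theorem.** -/
theorem quasi_and_dense [T2Space M] [CompactSpace M]
    (α : M → Cov E) (hα : IsContact α) (R : M → E) (hR : IsReeb α R)
    [T2Space P] [SigmaCompactSpace P] [ConnectedSpace P]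
    (q : P → M) (hq : IsQuotientMap E q Γ)
    {m : ℕ} (A : TorusSymmetry (pull (E := E) q α) m) (hA : Normalises Γ A.act)
    (hne : ∃ θ y, A.act θ y ≠ y) :
    (∃ (F : (Fin m → ℝ) → M) (w : Fin m → ℝ), IsQuasiPeriodicOrbit R F w) ∧
    ∃ g : Fin m → M → ℝ, (∀ i, ContMDiff 𝓘(ℝ, E) 𝓘(ℝ, ℝ) ∞ (g i)) ∧
      ∀ ε > (0:ℝ), ∃ δ : Fin m → ℝ, (∀ i, |δ i| < ε) ∧ (∀ y, 0 < 1 + ∑ i, δ i * g i y) ∧
        IsContact (scale (fun y => 1 + ∑ i, δ i * g i y) α) ∧
        ∃ R' : M → E, IsReeb (scale (fun y => 1 + ∑ i, δ i * g i y) α) R' ∧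
          ∃ (c : ℝ → M) (T : ℝ), IsPeriodicOrbit R' c T := by
  have hm : 0 < m := by
    rcases Nat.eq_zero_or_pos m with h | h
    · exfalso
      subst h
      obtain ⟨θ, y, hy⟩ := hne
      apply hy
      rw [show θ = 0 from Subsingleton.elim _ _, A.zero]
    · exact h
  have hone : scale (fun _ : M => (1:ℝ)) α = α := by
    ext1 y
    exact one_smul ℝ (show E →L[ℝ] ℝ from α y)
  obtain ⟨x₀, hx₀⟩ := exists_maxIso A
  rcases Nat.eq_zero_or_pos (orbitDim E A.act x₀) with h0 | h0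
  · -- a fixed point: closed orbits
    obtain ⟨c, T, hT⟩ := exists_periodic_small α hα R hR q hq A hA hne x₀ (by omega)
    refine ⟨?_, fun _ _ => 0, fun i => contMDiff_const, fun ε hε => ⟨fun _ => 0, ?_, ?_, ?_, R, ?_,
      c, T, hT⟩⟩
    · have hTpos := hT.pos
      refine ⟨fun θ => c (T * θ ⟨0, hm⟩), Pi.single ⟨0, hm⟩ T⁻¹, ?_, ?_, ?_⟩
      · have hcc : Continuous c := by
          rw [continuous_iff_continuousAt]
          exact fun t => (hT.integral t).continuousAt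
        exact hcc.comp (by fun_prop)
      · intro k θ
        have hper : ∀ (n : ℤ) (t : ℝ), c (t + n * T) = c t := by
          intro n t
          have h1 : Function.Periodic c T := hT.period
          exact (h1.int_mul n) t
        have h2 : T * (θ ⟨0, hm⟩ + (k ⟨0, hm⟩ : ℝ)) = T * θ ⟨0, hm⟩ + (k ⟨0, hm⟩ : ℝ) * T := by
          ring
        simp only
        rw [h2, hper]
      · have h1 : (fun t : ℝ => c (T * (t * (Pi.single (⟨0, hm⟩ : Fin m) T⁻¹ : Fin m → ℝ) ⟨0, hm⟩))) =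
            c := by
          ext1 t
          rw [Pi.single_eq_same]
          congr 1
          field_simp
        rw [h1]
        exact hT.integral
    · intro i
      simpa using hε
    · intro y
      simp
    · simp only [zero_mul, Finset.sum_const_zero, add_zero]
      rw [hone]
      exact hα
    · simp only [zero_mul, Finset.sum_const_zero, add_zero]
      rw [hone]
      exact hR
  · obtain ⟨x, w, hxw⟩ := reduction_q α hα R hR q hq A hA x₀ hx₀
      (fun E' _ _ _ M' _ _ _ P' _ _ _ _ _ _ _ _ Γ' _ _ α' hα' R' hR' q' hq' A' hA' => by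
        obtain ⟨p⟩ : Nonempty P' := inferInstance
        have : Nonempty P' := ⟨p⟩
        exact quasi_free α' hα' R' hR' q' hq' h0 A' hA')
    refine ⟨⟨fun θ => q (A.act θ x), w, ?_, ?_, hxw⟩, ?_⟩
    · have h1 : Continuous q := hq.diffeo.contMDiff.continuous
      have h2 : Continuous (fun p : (Fin m → ℝ) × P => A.act p.1 p.2) := A.smooth.continuous
      exact h1.comp (h2.comp (continuous_id.prodMk continuous_const))
    · intro k θ
      show q (A.act (fun i => θ i + (k i : ℝ)) x) = q (A.act θ x)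
      congr 1
      have h1 : (fun i => θ i + (k i : ℝ)) = θ + fun i => (k i : ℝ) := rfl
      rw [h1, A.add, A.period]
    · obtain ⟨hH, hd⟩ := crit_of_integral α hα R hR q hq A hxw
      have hq' : H826R2.Wein.RegCover (E := E) q Γ := hq.toWein
      have hN : A.toTS.Norm Γ := ⟨hq'.strict _, hA⟩
      obtain ⟨g, hg, hgε⟩ := exists_perturbation hα.toWein hR.toWein hq' A.toTS hN x w hH hd
      refine ⟨g, hg, fun ε hε => ?_⟩
      obtain ⟨δ, h1, h2, R', h3, c, T, h4, h5, h6⟩ := hgε ε hε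
      have hhs : ContMDiff 𝓘(ℝ, E) 𝓘(ℝ, ℝ) ∞ (fun y => 1 + ∑ i, δ i * g i y) := by
        apply ContMDiff.add contMDiff_const
        exact contMDiff_finsetSum fun i _ => contMDiff_const.mul (hg i)
      have h7 := isContact_smul hhs h2 hα.toWein
      refine ⟨δ, h1, h2, ⟨h7.smooth, ?_, fun x u hu hv => h7.nondeg x u hu hv⟩, R',
        ⟨h3.unit, h3.kernel⟩, c, T, h4, h5, h6⟩
      intro y
      obtain ⟨v, hv⟩ := hα.ne_zero y
      exact ⟨v, mul_ne_zero (h2 y).ne' hv⟩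

end Pool.Agent.R775
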