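import Mathlib

/-! Persistence of nondegenerate critical orbits: the local statement. -/

open scoped Topology ContDiff
open Set Metric

noncomputable section

namespace Pool.Agent.R775

variable {E : Type*} [NormedAddCommGroup E] [NormedSpace ℝ E] [FiniteDimensional ℝ E] {m : ℕ}

/-- the linear combination of the components of `F` -/
def comb {X : Type*} (F : X → Fin m → ℝ) (v : Fin m → ℝ) (z : X) : ℝ := ∑ i, v i * F z i

lemma contDiffAt_comb {G : Type*} [NormedAddCommGroup G] [NormedSpace ℝ G] {F : G → Fin m → ℝ}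
    {z : G} {n : WithTop ℕ∞} (hF : ContDiffAt ℝ n F z) (v : Fin m → ℝ) :
    ContDiffAt ℝ n (comb F v) z := by
  have h : ∀ i, ContDiffAt ℝ n (fun z => F z i) z := fun i => contDiffAt_pi.1 hF i
  exact ContDiffAt.sum fun i _ => contDiffAt_const.mul (h i)

theorem local_persistence_aux {G : Type*} [NormedAddCommGroup G] [NormedSpace ℝ G]
    [FiniteDimensional ℝ G] (j : G →L[ℝ] E) (hjinj : Function.Injective j)
    {z₀ : E} {F : E → Fin m → ℝ} (hF : ContDiffAt ℝ ∞ F z₀)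
    {T : E × (Fin m → ℝ) → E} (hT : ContDiffAt ℝ ∞ T (z₀, 0))
    (hT0 : ∀ᶠ z in 𝓝 z₀, T (z, 0) = z) (hTF : ∀ᶠ p in 𝓝 (z₀, (0 : Fin m → ℝ)), F (T p) = F p.1)
    {X : (Fin m → ℝ) →L[ℝ] E} (hX : Function.Injective X)
    (hE₂ : IsCompl (LinearMap.range X.toLinearMap) (LinearMap.range j.toLinearMap))
    (hTX : ∀ κ, fderiv ℝ T (z₀, 0) (0, κ) = X κ)
    {w : Fin m → ℝ} (hcr : ∀ᶠ θ in 𝓝 (0 : Fin m → ℝ), fderiv ℝ (comb F w) (T (z₀, θ)) = 0)
    (hnd : ∀ u : E, (∀ v, fderiv ℝ (fderiv ℝ (comb F w)) z₀ u v = 0) → ∃ κ, u = X κ)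
    {U : Set E} (hU : U ∈ 𝓝 z₀) :
    ∀ᶠ v in 𝓝 w, ∃ z ∈ U, fderiv ℝ (comb F v) z = 0 := by
  set k : G → Fin m → ℝ := fun e => F (z₀ + j e) with hk
  have hz0 : z₀ + j (0 : G) = z₀ := by simp
  have hadd : ContDiff ℝ ∞ (fun e : G => z₀ + j e) := contDiff_const.add j.contDiff
  have haddd : ∀ e : G, HasFDerivAt (fun e : G => z₀ + j e) j e := fun e =>
    j.hasFDerivAt.const_add z₀
  have hks : ContDiffAt ℝ ∞ k 0 := by
    have h1 : ContDiffAt ℝ ∞ F (z₀ + j (0 : G)) := by rw [hz0]; exact hF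
    exact h1.comp (0 : G) hadd.contDiffAt
  have hki : ∀ i, ContDiffAt ℝ ∞ (fun e => k e i) 0 := fun i => contDiffAt_pi.1 hks i
  set g : Fin m → G → (G →L[ℝ] ℝ) := fun i => fderiv ℝ (fun e => k e i) with hg
  have hgi : ∀ i, ContDiffAt ℝ ∞ (g i) 0 := fun i => (hki i).fderiv_right (m := ∞) (by simp)
  set Ψ : G × (Fin m → ℝ) → (G →L[ℝ] ℝ) × (Fin m → ℝ) := fun p =>
    (∑ i, p.2 i • g i p.1, p.2) with hΨ
  have hΨs : ContDiffAt ℝ ∞ Ψ (0, w) := by
    apply ContDiffAt.prodMk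
    · apply ContDiffAt.sum
      intro i _
      have h1 : ContDiffAt ℝ ∞ (fun p : G × (Fin m → ℝ) => p.2 i) (0, w) :=
        ((contDiff_apply ℝ ℝ i).comp contDiff_snd).contDiffAt
      have h2 : ContDiffAt ℝ ∞ (fun p : G × (Fin m → ℝ) => g i p.1) (0, w) :=
        ContDiffAt.comp (0, w) (g := g i) (f := fun p : G × (Fin m → ℝ) => p.1) (hgi i)
          contDiffAt_fst
      exact h1.smul h2
    · exact contDiffAt_snd
  -- the two derivatives of the combination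
  set c : E → ℝ := comb F w with hc
  have hcs : ContDiffAt ℝ ∞ c z₀ := contDiffAt_comb hF w
  have hc's : ContDiffAt ℝ ∞ (fderiv ℝ c) z₀ := hcs.fderiv_right (m := ∞) (by simp)
  have hc'd : HasFDerivAt (fderiv ℝ c) (fderiv ℝ (fderiv ℝ c) z₀) z₀ :=
    (hc's.differentiableAt (by simp)).hasFDerivAt
  have hsumk : ∀ v : Fin m → ℝ, ∀ᶠ e in 𝓝 (0 : G), fderiv ℝ (comb k v) e = ∑ i, v i • g i e := by
    intro v
    have h1 : ∀ᶠ e in 𝓝 (0 : G), ∀ i, DifferentiableAt ℝ (fun e => k e i) e := by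
      rw [Filter.eventually_all]
      intro i
      have h2 := ((hki i).of_le (m := 1) (by simp)).eventually (by simp)
      filter_upwards [h2] with e he
      exact he.differentiableAt (by simp)
    filter_upwards [h1] with e he
    have h2 : HasFDerivAt (comb k v) (∑ i, v i • g i e) e := by
      have h3 : ∀ i ∈ Finset.univ, HasFDerivAt (fun e => v i * k e i) (v i • g i e) e :=
        fun i _ => (he i).hasFDerivAt.const_mul (v i)
      have h4 := HasFDerivAt.fun_sum h3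
      exact h4
    exact h2.fderiv
  have hchain : ∀ᶠ e in 𝓝 (0 : G), fderiv ℝ (comb k w) e = (fderiv ℝ c (z₀ + j e)).comp j := by
    have h1 : ∀ᶠ z in 𝓝 z₀, DifferentiableAt ℝ c z := by
      have h2 := (hcs.of_le (m := 1) (by simp)).eventually (by simp)
      filter_upwards [h2] with e he
      exact he.differentiableAt (by simp)
    have h3 : Filter.Tendsto (fun e : G => z₀ + j e) (𝓝 0) (𝓝 z₀) := by
      have := (hadd.continuous).tendsto (0 : G)
      rwa [hz0] at this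
    filter_upwards [h3.eventually h1] with e he
    exact (HasFDerivAt.comp e he.hasFDerivAt (haddd e)).fderiv
  have hB : ∀ u v : G, (∑ i, w i • (fderiv ℝ (g i) 0 u)) v =
      fderiv ℝ (fderiv ℝ c) z₀ (j u) (j v) := by
    intro u v
    have h1 : HasFDerivAt (fderiv ℝ (comb k w)) (∑ i, w i • fderiv ℝ (g i) 0) 0 := by
      have h2 : HasFDerivAt (fun e => ∑ i, w i • g i e) (∑ i, w i • fderiv ℝ (g i) 0) 0 :=
        HasFDerivAt.fun_sum fun i _ =>
          ((hgi i).differentiableAt (by simp)).hasFDerivAt.const_smul (w i)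
      exact h2.congr_of_eventuallyEq (hsumk w)
    have h2 : HasFDerivAt (fderiv ℝ (comb k w))
        (((ContinuousLinearMap.compL ℝ G E ℝ).flip j).comp
          ((fderiv ℝ (fderiv ℝ c) z₀).comp j)) 0 := by
      have h3 : HasFDerivAt (fun e : G => fderiv ℝ c (z₀ + j e))
          ((fderiv ℝ (fderiv ℝ c) z₀).comp j) 0 := by
        have h4 : HasFDerivAt (fderiv ℝ c) (fderiv ℝ (fderiv ℝ c) z₀) (z₀ + j (0 : G)) := by
          rw [hz0]; exact hc'd
        exact HasFDerivAt.comp (0 : G) h4 (haddd 0)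
      have h5 := ((ContinuousLinearMap.compL ℝ G E ℝ).flip j).hasFDerivAt.comp (0 : G) h3
      exact h5.congr_of_eventuallyEq hchain
    have h3 := h1.unique h2
    have h4 := DFunLike.congr_fun (DFunLike.congr_fun h3 u) v
    have h5 : (∑ i, w i • (fderiv ℝ (g i) 0 u)) v = ((∑ i, w i • fderiv ℝ (g i) 0) u) v := by
      simp
    rw [h5]
    exact h4
  -- injectivity
  have hTz : T (z₀, 0) = z₀ := hT0.self_of_nhds
  have hXdir : ∀ κ, fderiv ℝ (fderiv ℝ c) z₀ (X κ) = 0 := by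
    intro κ
    have h1 : HasFDerivAt (fun θ : Fin m → ℝ => T (z₀, θ))
        ((fderiv ℝ T (z₀, 0)).comp (ContinuousLinearMap.inr ℝ E (Fin m → ℝ))) 0 := by
      have h2 : HasFDerivAt (fun θ : Fin m → ℝ => (z₀, θ))
          (ContinuousLinearMap.inr ℝ E (Fin m → ℝ)) 0 := hasFDerivAt_prodMk_right _ _
      exact HasFDerivAt.comp (0 : Fin m → ℝ) (hT.differentiableAt (by simp)).hasFDerivAt h2
    have h2 : HasFDerivAt (fun θ : Fin m → ℝ => fderiv ℝ c (T (z₀, θ)))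
        ((fderiv ℝ (fderiv ℝ c) z₀).comp
          ((fderiv ℝ T (z₀, 0)).comp (ContinuousLinearMap.inr ℝ E (Fin m → ℝ)))) 0 := by
      have h3 : HasFDerivAt (fderiv ℝ c) (fderiv ℝ (fderiv ℝ c) z₀) (T (z₀, 0)) := by
        rw [hTz]; exact hc'd
      exact HasFDerivAt.comp (0 : Fin m → ℝ) h3 h1
    have h3 : HasFDerivAt (fun θ : Fin m → ℝ => fderiv ℝ c (T (z₀, θ)))
        (0 : (Fin m → ℝ) →L[ℝ] (E →L[ℝ] ℝ)) 0 :=
      (hasFDerivAt_const (0 : E →L[ℝ] ℝ) (0 : Fin m → ℝ)).congr_of_eventuallyEq hcr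
    have h4 := h2.unique h3
    have h5 := DFunLike.congr_fun h4 κ
    rw [← hTX κ]
    exact h5
  have hsymm : ∀ u v, fderiv ℝ (fderiv ℝ c) z₀ u v = fderiv ℝ (fderiv ℝ c) z₀ v u := fun u v =>
    (hcs.isSymmSndFDerivAt (by
      rw [minSmoothness_of_isRCLikeNormedField]
      exact WithTop.coe_le_coe.2 (le_top : (2 : ℕ∞) ≤ ⊤))).eq u v
  let Bl : G →ₗ[ℝ] (G →L[ℝ] ℝ) := (∑ i, w i • fderiv ℝ (g i) 0 : G →L[ℝ] (G →L[ℝ] ℝ)).toLinearMap
  have hBl : ∀ u v : G, Bl u v = fderiv ℝ (fderiv ℝ c) z₀ (j u) (j v) := by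
    intro u v
    rw [← hB u v]
    show ((∑ i, w i • fderiv ℝ (g i) 0) u) v = _
    simp
  have hinj : Function.Injective Bl := by
    rw [injective_iff_map_eq_zero]
    intro u hu
    obtain ⟨κ, hκ⟩ := hnd (j u) (by
      intro v
      obtain ⟨a, ⟨κ, rfl⟩, b', ⟨b, rfl⟩, hab⟩ :=
        Submodule.mem_sup.1 (hE₂.sup_eq_top ▸ Submodule.mem_top : v ∈
          LinearMap.range X.toLinearMap ⊔ LinearMap.range j.toLinearMap)
      rw [← hab, map_add]
      have h1 : fderiv ℝ (fderiv ℝ c) z₀ (j u) (X.toLinearMap κ) = 0 := by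
        rw [hsymm]
        show fderiv ℝ (fderiv ℝ c) z₀ (X κ) (j u) = 0
        rw [hXdir]
        rfl
      have h2 : fderiv ℝ (fderiv ℝ c) z₀ (j u) (j.toLinearMap b) = 0 := by
        have := hBl u b
        rw [hu] at this
        exact this.symm
      rw [h1, h2, add_zero])
    have h1 : (j u) ∈ (LinearMap.range X.toLinearMap) ⊓ LinearMap.range j.toLinearMap :=
      ⟨⟨κ, hκ.symm⟩, ⟨u, rfl⟩⟩
    rw [hE₂.inf_eq_bot, Submodule.mem_bot] at h1
    exact hjinj (by rw [h1, map_zero])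
  have hsurj : Function.Surjective Bl := by
    apply (LinearMap.injective_iff_surjective_of_finrank_eq_finrank ?_).1 hinj
    rw [← (LinearMap.toContinuousLinearMap (𝕜 := ℝ) (E := G) (F' := ℝ)).finrank_eq]
    exact (Subspace.dual_finrank_eq (K := ℝ) (V := G)).symm
  -- the derivative of `Ψ`
  have hΨd : ∀ (u : G) (κ : Fin m → ℝ), fderiv ℝ Ψ (0, w) (u, κ) =
      (Bl u + ∑ i, κ i • g i 0, κ) := by
    intro u κ
    have h1 : ∀ i ∈ Finset.univ, HasFDerivAt (fun p : G × (Fin m → ℝ) => p.2 i • g i p.1)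
        (w i • ((fderiv ℝ (g i) 0).comp (ContinuousLinearMap.fst ℝ G (Fin m → ℝ))) +
        ((ContinuousLinearMap.proj i).comp
          (ContinuousLinearMap.snd ℝ G (Fin m → ℝ))).smulRight (g i 0)) (0, w) := by
      intro i _
      have h2 : HasFDerivAt (fun p : G × (Fin m → ℝ) => p.2 i)
          ((ContinuousLinearMap.proj i).comp (ContinuousLinearMap.snd ℝ G (Fin m → ℝ))) (0, w) :=
        ((ContinuousLinearMap.proj (R := ℝ) (φ := fun _ : Fin m => ℝ) i).comp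
          (ContinuousLinearMap.snd ℝ G (Fin m → ℝ))).hasFDerivAt
      have h3 : HasFDerivAt (fun p : G × (Fin m → ℝ) => g i p.1)
          ((fderiv ℝ (g i) 0).comp (ContinuousLinearMap.fst ℝ G (Fin m → ℝ))) (0, w) :=
        HasFDerivAt.comp ((0 : G), w) (g := g i) (f := fun p : G × (Fin m → ℝ) => p.1)
          ((hgi i).differentiableAt (by simp)).hasFDerivAt hasFDerivAt_fst
      exact h2.smul h3
    have h2 : HasFDerivAt Ψ _ (0, w) := (HasFDerivAt.fun_sum h1).prodMk hasFDerivAt_snd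
    rw [h2.fderiv]
    refine Prod.ext ?_ rfl
    refine ContinuousLinearMap.ext fun v => ?_
    simp [Bl, Finset.sum_add_distrib]
  have hΨsurj : (fderiv ℝ Ψ (0, w)).range = ⊤ := by
    rw [LinearMap.range_eq_top]
    rintro ⟨η, κ⟩
    obtain ⟨u, hu⟩ := hsurj (η - ∑ i, κ i • g i 0)
    refine ⟨(u, κ), ?_⟩
    show fderiv ℝ Ψ (0, w) (u, κ) = _
    rw [hΨd, hu, sub_add_cancel]
  have hmap := (hΨs.hasStrictFDerivAt (by simp)).map_nhds_eq_of_surj hΨsurj
  -- the full map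
  set S : G × (Fin m → ℝ) → E := fun p => T (z₀ + j p.1, p.2) with hS
  have hSin : ContDiff ℝ ∞ (fun p : G × (Fin m → ℝ) => (z₀ + j p.1, p.2)) :=
    (hadd.comp contDiff_fst).prodMk contDiff_snd
  have hS0 : ((fun p : G × (Fin m → ℝ) => (z₀ + j p.1, p.2)) ((0 : G), (0 : Fin m → ℝ))) =
      (z₀, (0 : Fin m → ℝ)) := by
    show (z₀ + j (0 : G), (0 : Fin m → ℝ)) = _
    rw [hz0]
  have hSs : ContDiffAt ℝ ∞ S (0, 0) := by
    have h1 : ContDiffAt ℝ ∞ T
        ((fun p : G × (Fin m → ℝ) => (z₀ + j p.1, p.2)) ((0 : G), (0 : Fin m → ℝ))) := by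
      rw [hS0]; exact hT
    exact ContDiffAt.comp ((0 : G), (0 : Fin m → ℝ)) h1 hSin.contDiffAt
  have hTu : ∀ u : E, fderiv ℝ T (z₀, 0) (u, 0) = u := by
    intro u
    have h1 : HasFDerivAt (fun z : E => T (z, (0 : Fin m → ℝ)))
        ((fderiv ℝ T (z₀, 0)).comp (ContinuousLinearMap.inl ℝ E (Fin m → ℝ))) z₀ := by
      have h2 : HasFDerivAt (fun z : E => (z, (0 : Fin m → ℝ)))
          (ContinuousLinearMap.inl ℝ E (Fin m → ℝ)) z₀ := hasFDerivAt_prodMk_left _ _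
      exact HasFDerivAt.comp z₀ (hT.differentiableAt (by simp)).hasFDerivAt h2
    have h2 : HasFDerivAt (fun z : E => T (z, (0 : Fin m → ℝ))) (ContinuousLinearMap.id ℝ E) z₀ :=
      (hasFDerivAt_id z₀).congr_of_eventuallyEq hT0
    exact DFunLike.congr_fun (h1.unique h2) u
  have hSd : ∀ (u : G) (κ : Fin m → ℝ), fderiv ℝ S (0, 0) (u, κ) = (j u) + X κ := by
    intro u κ
    have h1 : HasFDerivAt (fun p : G × (Fin m → ℝ) => (z₀ + j p.1, p.2))
        ((j.comp (ContinuousLinearMap.fst ℝ G (Fin m → ℝ))).prod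
          (ContinuousLinearMap.snd ℝ G (Fin m → ℝ))) (0, 0) := by
      have h2 : HasFDerivAt (fun p : G × (Fin m → ℝ) => z₀ + j p.1)
          (j.comp (ContinuousLinearMap.fst ℝ G (Fin m → ℝ))) (0, 0) :=
        HasFDerivAt.comp ((0 : G), (0 : Fin m → ℝ)) (g := fun e : G => z₀ + j e)
          (f := fun p : G × (Fin m → ℝ) => p.1) (haddd 0) hasFDerivAt_fst
      exact h2.prodMk hasFDerivAt_snd
    have h2 : HasFDerivAt T (fderiv ℝ T (z₀, 0))
        ((fun p : G × (Fin m → ℝ) => (z₀ + j p.1, p.2)) ((0 : G), (0 : Fin m → ℝ))) := by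
      rw [hS0]; exact (hT.differentiableAt (by simp)).hasFDerivAt
    have h3 := HasFDerivAt.comp ((0 : G), (0 : Fin m → ℝ)) h2 h1
    have h4 : fderiv ℝ S (0, 0) = _ := h3.fderiv
    rw [h4]
    show fderiv ℝ T (z₀, 0) ((j u), κ) = _
    have h5 : ((j u), κ) = ((j u), (0 : Fin m → ℝ)) + ((0 : E), κ) := by simp
    rw [h5, map_add, hTu, hTX]
  have hbij : Function.Bijective (fderiv ℝ S (0, 0)) := by
    constructor
    · rw [injective_iff_map_eq_zero]
      rintro ⟨u, κ⟩ h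
      rw [hSd] at h
      have h1 : (j u) ∈ (LinearMap.range X.toLinearMap) ⊓ LinearMap.range j.toLinearMap := by
        refine ⟨⟨-κ, ?_⟩, ⟨u, rfl⟩⟩
        show X (-κ) = (j u)
        rw [map_neg]
        exact (eq_neg_of_add_eq_zero_left h).symm
      rw [hE₂.inf_eq_bot, Submodule.mem_bot] at h1
      rw [h1, zero_add] at h
      have h2 : κ = 0 := hX (by rw [h, map_zero])
      rw [h2, Prod.mk_eq_zero]
      exact ⟨hjinj (by rw [h1, map_zero]), rfl⟩
    · intro v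
      obtain ⟨a, ⟨κ, rfl⟩, b', ⟨b, rfl⟩, hab⟩ :=
        Submodule.mem_sup.1 (hE₂.sup_eq_top ▸ Submodule.mem_top : v ∈
          LinearMap.range X.toLinearMap ⊔ LinearMap.range j.toLinearMap)
      refine ⟨(b, κ), ?_⟩
      rw [hSd, add_comm]
      exact hab
  let Se : (G × (Fin m → ℝ)) ≃L[ℝ] E := ContinuousLinearEquiv.ofBijective (fderiv ℝ S (0, 0))
    (LinearMap.ker_eq_bot.2 hbij.1) (LinearMap.range_eq_top.2 hbij.2)
  have hSinv : ∀ᶠ p in 𝓝 ((0 : G), (0 : Fin m → ℝ)), Function.Surjective (fderiv ℝ S p) := by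
    have h1 : ContinuousAt (fderiv ℝ S) (0, 0) :=
      (hSs.fderiv_right (m := ∞) (by simp)).continuousAt
    have h2 := Se.nhds
    have h3 : (Se : (G × (Fin m → ℝ)) →L[ℝ] E) = fderiv ℝ S (0, 0) := by
      refine ContinuousLinearMap.ext fun _ => rfl
    rw [h3] at h2
    filter_upwards [h1.eventually h2] with p hp
    obtain ⟨e, he⟩ := hp
    rw [← he]
    exact e.surjective
  -- conclusion
  have hFS : ∀ᶠ p in 𝓝 ((0 : G), (0 : Fin m → ℝ)), F (S p) = k p.1 := by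
    have h1 : Filter.Tendsto (fun p : G × (Fin m → ℝ) => (z₀ + j p.1, p.2))
        (𝓝 (0, 0)) (𝓝 (z₀, 0)) := by
      have := hSin.continuous.tendsto ((0 : G), (0 : Fin m → ℝ))
      simp only [hz0] at this
      exact this
    exact h1.eventually hTF
  have hgood : ∀ᶠ e in 𝓝 (0 : G), z₀ + j e ∈ U ∧ Function.Surjective (fderiv ℝ S (e, 0)) ∧
      (∀ᶠ p in 𝓝 (e, (0 : Fin m → ℝ)), F (S p) = k p.1) ∧ DifferentiableAt ℝ S (e, 0) ∧
      S (e, 0) = z₀ + j e ∧ DifferentiableAt ℝ F (z₀ + j e) ∧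
      (∀ i, DifferentiableAt ℝ (fun e => k e i) e) := by
    have hin : Filter.Tendsto (fun e : G => (e, (0 : Fin m → ℝ))) (𝓝 0) (𝓝 (0, 0)) :=
      (Continuous.prodMk_left (0 : Fin m → ℝ)).tendsto 0
    have h3 : Filter.Tendsto (fun e : G => z₀ + j e) (𝓝 0) (𝓝 z₀) := by
      have := (hadd.continuous).tendsto (0 : G)
      rwa [hz0] at this
    have h4 : ∀ᶠ p in 𝓝 ((0 : G), (0 : Fin m → ℝ)), DifferentiableAt ℝ S p := by
      have h2 := (hSs.of_le (m := 1) (by simp)).eventually (by simp)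
      filter_upwards [h2] with e he
      exact he.differentiableAt (by simp)
    have h5 : ∀ᶠ z in 𝓝 z₀, DifferentiableAt ℝ F z := by
      have h2 := (hF.of_le (m := 1) (by simp)).eventually (by simp)
      filter_upwards [h2] with e he
      exact he.differentiableAt (by simp)
    have h6 : ∀ᶠ e in 𝓝 (0 : G), ∀ i, DifferentiableAt ℝ (fun e => k e i) e := by
      rw [Filter.eventually_all]
      intro i
      have h2 := ((hki i).of_le (m := 1) (by simp)).eventually (by simp)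
      filter_upwards [h2] with e he
      exact he.differentiableAt (by simp)
    filter_upwards [h3.eventually hU, hin.eventually hSinv,
      hin.eventually (eventually_eventually_nhds.2 hFS), hin.eventually h4, h3.eventually hT0,
      h3.eventually h5, h6] with e a1 a2 a3 a4 a5 a6 a7
    exact ⟨a1, a2, a3, a4, a5, a6, a7⟩
  -- find the solution
  have hΨ0 : Ψ (0, w) = ((0 : G →L[ℝ] ℝ), w) := by
    have h1 := (hsumk w).self_of_nhds
    have h2 := hchain.self_of_nhds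
    have h3 : fderiv ℝ c (z₀ + j (0 : G)) = 0 := by
      rw [hz0]
      have := hcr.self_of_nhds
      rwa [hTz] at this
    have h4 : ∑ i, w i • g i 0 = 0 := by
      rw [← h1, h2, h3]
      exact ContinuousLinearMap.zero_comp _
    show (∑ i, w i • g i 0, w) = _
    rw [h4]
  have hset : {p : G × (Fin m → ℝ) | (z₀ + j p.1 ∈ U ∧
      Function.Surjective (fderiv ℝ S (p.1, 0)) ∧
      (∀ᶠ p' in 𝓝 (p.1, (0 : Fin m → ℝ)), F (S p') = k p'.1) ∧ DifferentiableAt ℝ S (p.1, 0) ∧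
      S (p.1, 0) = z₀ + j p.1 ∧ DifferentiableAt ℝ F (z₀ + j p.1) ∧
      (∀ i, DifferentiableAt ℝ (fun e => k e i) p.1))} ∈ 𝓝 ((0 : G), w) :=
    (continuous_fst.tendsto ((0 : G), w)).eventually hgood
  have himg : Ψ '' {p : G × (Fin m → ℝ) | (z₀ + j p.1 ∈ U ∧
      Function.Surjective (fderiv ℝ S (p.1, 0)) ∧
      (∀ᶠ p' in 𝓝 (p.1, (0 : Fin m → ℝ)), F (S p') = k p'.1) ∧ DifferentiableAt ℝ S (p.1, 0) ∧
      S (p.1, 0) = z₀ + j p.1 ∧ DifferentiableAt ℝ F (z₀ + j p.1) ∧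
      (∀ i, DifferentiableAt ℝ (fun e => k e i) p.1))} ∈ 𝓝 ((0 : G →L[ℝ] ℝ), w) := by
    rw [← hΨ0, ← hmap]
    exact Filter.image_mem_map hset
  have hv : Filter.Tendsto (fun v : Fin m → ℝ => ((0 : G →L[ℝ] ℝ), v)) (𝓝 w)
      (𝓝 ((0 : G →L[ℝ] ℝ), w)) := (Continuous.prodMk_right _).tendsto w
  filter_upwards [hv.eventually himg] with v hv'
  obtain ⟨⟨e, v'⟩, ⟨b1, b2, b3, b4, b5, b6, b7⟩, hev⟩ := hv'
  have hv'v : v' = v := congrArg Prod.snd hev
  subst hv'v
  have hsum0 : ∑ i, v' i • g i e = 0 := congrArg Prod.fst hev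
  refine ⟨z₀ + j e, b1, ?_⟩
  have hk0 : HasFDerivAt (comb k v') (0 : G →L[ℝ] ℝ) e := by
    rw [← hsum0]
    have h3 : ∀ i ∈ Finset.univ, HasFDerivAt (fun e => v' i * k e i) (v' i • g i e) e :=
      fun i _ => (b7 i).hasFDerivAt.const_mul (v' i)
    exact HasFDerivAt.fun_sum h3
  have h1 : HasFDerivAt (fun p : G × (Fin m → ℝ) => comb k v' p.1)
      (0 : G × (Fin m → ℝ) →L[ℝ] ℝ) (e, 0) := by
    have h2 := HasFDerivAt.comp (e, (0 : Fin m → ℝ)) (g := comb k v')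
      (f := fun p : G × (Fin m → ℝ) => p.1) hk0 hasFDerivAt_fst
    rwa [ContinuousLinearMap.zero_comp] at h2
  have h2 : HasFDerivAt (fun p : G × (Fin m → ℝ) => comb F v' (S p))
      (0 : G × (Fin m → ℝ) →L[ℝ] ℝ) (e, 0) := by
    refine h1.congr_of_eventuallyEq ?_
    filter_upwards [b3] with p hp
    unfold comb
    rw [hp]
  have hFd : DifferentiableAt ℝ (comb F v') (S (e, 0)) := by
    rw [b5]
    have : ∀ i, DifferentiableAt ℝ (fun z => F z i) (z₀ + j e) := fun i =>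
      differentiableAt_pi.1 b6 i
    exact DifferentiableAt.fun_sum fun i _ => (this i).const_mul _
  have h3 : HasFDerivAt (fun p : G × (Fin m → ℝ) => comb F v' (S p))
      ((fderiv ℝ (comb F v') (S (e, 0))).comp (fderiv ℝ S (e, 0))) (e, 0) :=
    HasFDerivAt.comp (e, (0 : Fin m → ℝ)) hFd.hasFDerivAt b4.hasFDerivAt
  have h4 := h3.unique h2
  rw [b5] at h4
  refine ContinuousLinearMap.ext fun u => ?_
  obtain ⟨p, rfl⟩ := b2 u
  exact DFunLike.congr_fun h4 p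

theorem local_persistence {z₀ : E} {F : E → Fin m → ℝ} (hF : ContDiffAt ℝ ∞ F z₀)
    {T : E × (Fin m → ℝ) → E} (hT : ContDiffAt ℝ ∞ T (z₀, 0))
    (hT0 : ∀ᶠ z in 𝓝 z₀, T (z, 0) = z) (hTF : ∀ᶠ p in 𝓝 (z₀, (0 : Fin m → ℝ)), F (T p) = F p.1)
    {X : (Fin m → ℝ) →L[ℝ] E} (hX : Function.Injective X)
    (hTX : ∀ κ, fderiv ℝ T (z₀, 0) (0, κ) = X κ)
    {w : Fin m → ℝ} (hcr : ∀ᶠ θ in 𝓝 (0 : Fin m → ℝ), fderiv ℝ (comb F w) (T (z₀, θ)) = 0)
    (hnd : ∀ u : E, (∀ v, fderiv ℝ (fderiv ℝ (comb F w)) z₀ u v = 0) → ∃ κ, u = X κ)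
    {U : Set E} (hU : U ∈ 𝓝 z₀) :
    ∀ᶠ v in 𝓝 w, ∃ z ∈ U, fderiv ℝ (comb F v) z = 0 := by
  obtain ⟨E₂, hE₂⟩ := Submodule.exists_isCompl (LinearMap.range X.toLinearMap)
  refine local_persistence_aux E₂.subtypeL Subtype.val_injective hF hT hT0 hTF hX ?_ hTX hcr hnd hU
  have h1 : LinearMap.range E₂.subtypeL.toLinearMap = E₂ := by
    ext x
    constructor
    · rintro ⟨y, rfl⟩
      exact y.2
    · intro hx
      exact ⟨⟨x, hx⟩, rfl⟩
  rw [h1]
  exact hE₂

end Pool.Agent.R775
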