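import Mathlib
import Pool.Agent.R775.W8
import Pool.Agent.R775.W9

/-! Persistence of nondegenerate quasi-periodic orbits, actions not assumed locally free. -/

open scoped Topology ContDiff Manifold
open Set Metric Bundle Pool.Agent.Helper186 Pool.Agent.H826R2.Wein Pool.Agent.TH607

noncomputable section

namespace Pool.Agent.R775

set_option linter.unusedSectionVars false

universe u

variable {E : Type u} [NormedAddCommGroup E] [NormedSpace ℝ E] [FiniteDimensional ℝ E]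
  {P : Type*} [TopologicalSpace P] [ChartedSpace E P] [IsManifold 𝓘(ℝ, E) ∞ P]
  {β : (x : P) → TangentSpace 𝓘(ℝ, E) x →L[ℝ] ℝ} {m : ℕ}
  (A : TS β m)

/-- the momentum map in coordinates -/
def muS (x : P) : Fin m → ℝ := fun i => A.H (Pi.single i 1) x

lemma HS_eq_sum (κ : Fin m → ℝ) (x : P) : A.H κ x = ∑ i, κ i * muS A x i :=
  lin_expand
    { toFun := fun κ => A.H κ x
      map_add' := fun a b => A.H_add a b x
      map_smul' := fun c a => A.H_smul c a x } κ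

lemma contMDiff_muS (hβ : SmoothForm β) : ContMDiff 𝓘(ℝ, E) 𝓘(ℝ, Fin m → ℝ) ∞ (muS A) := by
  rw [contMDiff_pi_space]
  intro i
  exact A.smooth_H hβ _

theorem persistence (hβ : SmoothForm β) {x₀ : P} {w : Fin m → ℝ}
    (hfree : ∀ κ : Fin m → ℝ, (A.X κ x₀ : E) = 0 → κ = 0) (hd : dForm 𝓘(ℝ, E) (A.H w) x₀ = 0)
    (hnd : ∀ u : E, (∀ v : E, fderiv ℝ (fderiv ℝ (A.H w ∘ (extChartAt 𝓘(ℝ, E) x₀).symm))
      (extChartAt 𝓘(ℝ, E) x₀ x₀) u v = 0) → ∃ κ, u = A.X κ x₀)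
    {U : Set P} (hU : U ∈ 𝓝 x₀) :
    ∀ᶠ v in 𝓝 w, ∃ x ∈ U, dForm 𝓘(ℝ, E) (A.H v) x = 0 := by
  set φ := extChartAt 𝓘(ℝ, E) x₀ with hφ
  set z₀ : E := φ x₀ with hz₀
  set F : E → Fin m → ℝ := muS A ∘ φ.symm with hF
  have hcomb : ∀ v, comb F v = A.H v ∘ φ.symm := fun v => by
    ext1 z
    show ∑ i, v i * muS A (φ.symm z) i = A.H v (φ.symm z)
    rw [HS_eq_sum]
  have hsz : φ.symm z₀ = x₀ := extChartAt_to_inv x₀
  have htgt : φ.target ∈ 𝓝 z₀ := extChartAt_target_mem_nhds x₀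
  have hsymm : ContMDiffAt 𝓘(ℝ, E) 𝓘(ℝ, E) ∞ φ.symm z₀ :=
    (contMDiffOn_extChartAt_symm x₀).contMDiffAt htgt
  have hsrc : φ.source ∈ 𝓝 x₀ := extChartAt_source_mem_nhds x₀
  have hFs : ContDiffAt ℝ ∞ F z₀ := ((contMDiff_muS A hβ).contMDiffAt.comp z₀ hsymm).contDiffAt
  set T : E × (Fin m → ℝ) → E := fun p => φ (A.act p.2 (φ.symm p.1)) with hT
  have hact : ContMDiffAt (𝓘(ℝ, E × (Fin m → ℝ))) 𝓘(ℝ, E) ∞
      (fun p : E × (Fin m → ℝ) => A.act p.2 (φ.symm p.1)) (z₀, 0) := by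
    have h1 : ContMDiffAt 𝓘(ℝ, E × (Fin m → ℝ)) (𝓘(ℝ, Fin m → ℝ).prod 𝓘(ℝ, E)) ∞
        (fun p : E × (Fin m → ℝ) => (p.2, φ.symm p.1)) (z₀, 0) := by
      apply ContMDiffAt.prodMk
      · exact contDiffAt_snd.contMDiffAt
      · have h2 : ContMDiffAt 𝓘(ℝ, E × (Fin m → ℝ)) 𝓘(ℝ, E) ∞
            (fun p : E × (Fin m → ℝ) => p.1) (z₀, 0) := contDiffAt_fst.contMDiffAt
        exact ContMDiffAt.comp (z₀, (0 : Fin m → ℝ)) (g := φ.symm)
          (f := fun p : E × (Fin m → ℝ) => p.1) hsymm h2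
    exact ContMDiffAt.comp (z₀, (0 : Fin m → ℝ))
      (g := fun p : (Fin m → ℝ) × P => A.act p.1 p.2) A.smooth.contMDiffAt h1
  have hact0 : A.act (0 : Fin m → ℝ) (φ.symm z₀) = x₀ := by rw [A.zero, hsz]
  have hTs : ContDiffAt ℝ ∞ T (z₀, 0) := by
    have h1 : ContMDiffAt 𝓘(ℝ, E) 𝓘(ℝ, E) ∞ φ (A.act (0 : Fin m → ℝ) (φ.symm z₀)) := by
      rw [hact0]; exact contMDiffAt_extChartAt
    exact (ContMDiffAt.comp (z₀, (0 : Fin m → ℝ)) (g := φ)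
      (f := fun p : E × (Fin m → ℝ) => A.act p.2 (φ.symm p.1)) h1 hact).contDiffAt
  have hT0 : ∀ᶠ z in 𝓝 z₀, T (z, 0) = z := by
    filter_upwards [htgt] with z hz
    show φ (A.act 0 (φ.symm z)) = z
    rw [A.zero, φ.right_inv hz]
  have hTF : ∀ᶠ p in 𝓝 (z₀, (0 : Fin m → ℝ)), F (T p) = F p.1 := by
    have h1 : ∀ᶠ p in 𝓝 (z₀, (0 : Fin m → ℝ)), A.act p.2 (φ.symm p.1) ∈ φ.source :=
      hact.continuousAt.eventually_mem (by
        show φ.source ∈ 𝓝 (A.act (0 : Fin m → ℝ) (φ.symm z₀))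
        rw [hact0]; exact hsrc)
    filter_upwards [h1] with p hp
    show muS A (φ.symm (φ (A.act p.2 (φ.symm p.1)))) = muS A (φ.symm p.1)
    rw [φ.left_inv hp]
    ext i
    exact A.H_act _ _ _
  set X : (Fin m → ℝ) →L[ℝ] E := mfderiv 𝓘(ℝ, Fin m → ℝ) 𝓘(ℝ, E) (fun θ => A.act θ x₀) 0 with hX
  have hXinj : Function.Injective X := by
    rw [injective_iff_map_eq_zero]
    intro κ hκ
    exact hfree κ hκ
  have hTX : ∀ κ, fderiv ℝ T (z₀, 0) (0, κ) = X κ := by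
    intro κ
    have h1 : HasFDerivAt (fun θ : Fin m → ℝ => T (z₀, θ))
        ((fderiv ℝ T (z₀, 0)).comp (ContinuousLinearMap.inr ℝ E (Fin m → ℝ))) 0 :=
      HasFDerivAt.comp (0 : Fin m → ℝ) (hTs.differentiableAt (by simp)).hasFDerivAt
        (hasFDerivAt_prodMk_right _ _)
    have h2 : HasMFDerivAt 𝓘(ℝ, Fin m → ℝ) 𝓘(ℝ, E) (fun θ : Fin m → ℝ => A.act θ x₀) 0 X :=
      ((A.smooth_left x₀).mdifferentiableAt (by simp)).hasMFDerivAt
    have h3 : HasMFDerivAt 𝓘(ℝ, E) 𝓘(ℝ, E) φ (A.act 0 x₀)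
        (mfderiv 𝓘(ℝ, E) 𝓘(ℝ, E) φ (A.act 0 x₀)) := by
      have : MDifferentiableAt 𝓘(ℝ, E) 𝓘(ℝ, E) φ (A.act 0 x₀) := by
        rw [A.zero]; exact contMDiffAt_extChartAt.mdifferentiableAt (n := ∞) (by simp)
      exact this.hasMFDerivAt
    have h4 := HasMFDerivAt.comp (0 : Fin m → ℝ) h3 h2
    have h5 : (φ ∘ fun θ : Fin m → ℝ => A.act θ x₀) = fun θ => T (z₀, θ) := by
      ext1 θ
      show φ (A.act θ x₀) = φ (A.act θ (φ.symm z₀))
      rw [hsz]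
    rw [h5] at h4
    have h6 := hasMFDerivAt_unique h1.hasMFDerivAt h4
    have h7 := DFunLike.congr_fun h6 κ
    have h8 : ∀ z : P, z = x₀ → ∀ v : E, (mfderiv 𝓘(ℝ, E) 𝓘(ℝ, E) φ z v : E) = v := by
      intro z hz v
      subst hz
      exact Pool.Agent.Helper186.mfderiv_extChartAt_self z v
    exact h7.trans (h8 _ (A.zero x₀) _)
  have hchain : ∀ (v : Fin m → ℝ) (y : P), y ∈ φ.source → dForm 𝓘(ℝ, E) (A.H v) y = 0 →
      fderiv ℝ (comb F v) (φ y) = 0 := by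
    intro v y hy h0
    rw [hcomb]
    have h1 : φ y ∈ φ.target := φ.map_source hy
    have h2 : HasMFDerivAt 𝓘(ℝ, E) 𝓘(ℝ, E) φ.symm (φ y)
        (mfderiv 𝓘(ℝ, E) 𝓘(ℝ, E) φ.symm (φ y)) := by
      have h3 : ContMDiffAt 𝓘(ℝ, E) 𝓘(ℝ, E) ∞ φ.symm (φ y) :=
        (contMDiffOn_extChartAt_symm x₀).contMDiffAt
          ((isOpen_extChartAt_target x₀).mem_nhds h1)
      exact (h3.mdifferentiableAt (by simp)).hasMFDerivAt
    have h3 : HasMFDerivAt 𝓘(ℝ, E) 𝓘(ℝ, ℝ) (A.H v) (φ.symm (φ y)) 0 := by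
      rw [φ.left_inv hy]
      have h4 := ((A.smooth_H hβ v).mdifferentiableAt (x := y) (by simp)).hasMFDerivAt
      have h5 : mfderiv 𝓘(ℝ, E) 𝓘(ℝ, ℝ) (A.H v) y = 0 := h0
      rwa [h5] at h4
    have h4 := HasMFDerivAt.comp (φ y) h3 h2
    have h5 := h4.mfderiv
    rw [mfderiv_eq_fderiv] at h5
    refine h5.trans ?_
    exact ContinuousLinearMap.zero_comp _
  have hcr : ∀ᶠ θ in 𝓝 (0 : Fin m → ℝ), fderiv ℝ (comb F w) (T (z₀, θ)) = 0 := by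
    have h1 : ∀ᶠ θ in 𝓝 (0 : Fin m → ℝ), A.act θ x₀ ∈ φ.source :=
      (A.smooth_left x₀).continuous.continuousAt.eventually_mem (by rw [A.zero]; exact hsrc)
    filter_upwards [h1] with θ hθ
    have h2 : T (z₀, θ) = φ (A.act θ x₀) := by
      show φ (A.act θ (φ.symm z₀)) = _
      rw [hsz]
    rw [h2]
    exact hchain w _ hθ (A.crit_act hβ hd θ)
  have hnd' : ∀ u : E, (∀ v, fderiv ℝ (fderiv ℝ (comb F w)) z₀ u v = 0) → ∃ κ, u = X κ := by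
    rw [hcomb]
    exact hnd
  set U' : Set E := φ.target ∩ φ.symm ⁻¹' U with hU'
  have hU'm : U' ∈ 𝓝 z₀ := by
    apply Filter.inter_mem htgt
    apply hsymm.continuousAt.preimage_mem_nhds
    rw [hsz]; exact hU
  filter_upwards [local_persistence hFs hTs hT0 hTF hXinj hTX hcr hnd' hU'm] with v hv
  obtain ⟨z, ⟨hz1, hz2⟩, hz⟩ := hv
  refine ⟨φ.symm z, hz2, ?_⟩
  -- back to the manifold
  have h1 : φ.symm z ∈ φ.source := φ.map_target hz1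
  have h2 : HasMFDerivAt 𝓘(ℝ, E) 𝓘(ℝ, E) φ (φ.symm z)
      (mfderiv 𝓘(ℝ, E) 𝓘(ℝ, E) φ (φ.symm z)) := by
    have h3 : ContMDiffAt 𝓘(ℝ, E) 𝓘(ℝ, E) ∞ φ (φ.symm z) :=
      contMDiffAt_extChartAt' (by rwa [extChartAt_source] at h1)
    exact (h3.mdifferentiableAt (by simp)).hasMFDerivAt
  have h3 : HasMFDerivAt 𝓘(ℝ, E) 𝓘(ℝ, ℝ) (comb F v) (φ (φ.symm z)) 0 := by
    rw [φ.right_inv hz1]
    have h4 : DifferentiableAt ℝ (comb F v) z := by
      rw [hcomb]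
      have h5 : ContMDiffAt 𝓘(ℝ, E) 𝓘(ℝ, E) ∞ φ.symm z :=
        (contMDiffOn_extChartAt_symm x₀).contMDiffAt
          ((isOpen_extChartAt_target x₀).mem_nhds hz1)
      exact ((A.smooth_H hβ v).contMDiffAt.comp z h5).contDiffAt.differentiableAt (by simp)
    have h5 := h4.hasFDerivAt.hasMFDerivAt
    rwa [hz] at h5
  have h4 := HasMFDerivAt.comp (φ.symm z) h3 h2
  have h5 : (comb F v ∘ φ) =ᶠ[𝓝 (φ.symm z)] A.H v := by
    filter_upwards [(isOpen_extChartAt_source x₀).mem_nhds h1] with y hy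
    rw [hcomb]
    show A.H v (φ.symm (φ y)) = A.H v y
    rw [φ.left_inv hy]
  have h6 := h4.congr_of_eventuallyEq h5.symm
  have h7 := h6.mfderiv
  refine (show dForm 𝓘(ℝ, E) (A.H v) (φ.symm z) = _ from h7).trans ?_
  exact ContinuousLinearMap.zero_comp _

end Pool.Agent.R775
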