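import Mathlib
import Pool.Agent.R775.W11

/-! Infinitely many closed Reeb orbits near a nondegenerate quasi-periodic torus. -/

open scoped Topology ContDiff Manifold
open Set Metric Bundle Pool.Agent.Helper186 Pool.Agent.H826R2.Wein Pool.Agent.TH607

noncomputable section

namespace Pool.Agent.R775

set_option linter.unusedSectionVars false

universe u

section bound

variable {E : Type u} [NormedAddCommGroup E] [NormedSpace ℝ E] [FiniteDimensional ℝ E]
  {P : Type*} [TopologicalSpace P] [ChartedSpace E P] [IsManifold 𝓘(ℝ, E) ∞ P]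
  {β : (x : P) → TangentSpace 𝓘(ℝ, E) x →L[ℝ] ℝ} {m : ℕ}
  (A : TS β m)

/-- the linear functional with given coefficients -/
def Lc (v : Fin m → ℝ) : (Fin m → ℝ) →L[ℝ] ℝ := ∑ i, v i • ContinuousLinearMap.proj i

lemma Lc_apply (v y : Fin m → ℝ) : Lc v y = ∑ i, v i * y i := by
  simp [Lc, ContinuousLinearMap.sum_apply]

lemma continuous_Lc : Continuous (Lc (m := m)) := by
  unfold Lc
  refine continuous_finsetSum _ fun i _ => ?_
  exact (continuous_apply i).smul continuous_const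

/-- Near a point at which the action is locally free, the contact Hamiltonians which are critical
at a point control the coefficients. -/
theorem freq_bound (hc : IsContact β) {R : (x : P) → TangentSpace 𝓘(ℝ, E) x}
    (hR : IsReeb β R) {x₀ : P} (hfree : ∀ κ : Fin m → ℝ, (A.X κ x₀ : E) = 0 → κ = 0) :
    ∃ μ > (0:ℝ), ∀ᶠ y in 𝓝 x₀, ∀ g : Fin m → ℝ, dForm 𝓘(ℝ, E) (A.H g) y = 0 →
      μ * ‖g‖ ≤ |A.H g y| := by
  set φ := extChartAt 𝓘(ℝ, E) x₀ with hφ
  set z₀ : E := φ x₀ with hz₀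
  set F : E → Fin m → ℝ := muS A ∘ φ.symm with hF
  have hcomb : ∀ v, (fun z => Lc v (F z)) = A.H v ∘ φ.symm := fun v => by
    ext1 z
    show Lc v (muS A (φ.symm z)) = A.H v (φ.symm z)
    rw [HS_eq_sum, Lc_apply]
  have hsz : φ.symm z₀ = x₀ := extChartAt_to_inv x₀
  have htgt : φ.target ∈ 𝓝 z₀ := extChartAt_target_mem_nhds x₀
  have hsymm : ContMDiffAt 𝓘(ℝ, E) 𝓘(ℝ, E) ∞ φ.symm z₀ :=
    (contMDiffOn_extChartAt_symm x₀).contMDiffAt htgt
  have hsrc : φ.source ∈ 𝓝 x₀ := extChartAt_source_mem_nhds x₀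
  have hFs : ContDiffAt ℝ ∞ F z₀ :=
    ((contMDiff_muS A hc.smooth).contMDiffAt.comp z₀ hsymm).contDiffAt
  have hdF : ContinuousAt (fderiv ℝ F) z₀ := by
    have h1 : ContDiffAt ℝ 1 (fderiv ℝ F) z₀ := hFs.fderiv_right (by norm_cast)
    exact h1.continuousAt
  have hFd : ∀ᶠ z in 𝓝 z₀, DifferentiableAt ℝ F z := by
    have h1 : ContDiffAt ℝ 1 F z₀ := hFs.of_le (by norm_cast)
    filter_upwards [h1.eventually (by simp)] with z hz
    exact hz.differentiableAt (by simp)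
  have hLF : ∀ v z, DifferentiableAt ℝ F z →
      fderiv ℝ (fun z => Lc v (F z)) z = (Lc v).comp (fderiv ℝ F z) := by
    intro v z hz
    exact ((Lc v).hasFDerivAt.comp z hz.hasFDerivAt).fderiv
  have hFd0 : DifferentiableAt ℝ F z₀ := hFs.differentiableAt (by simp)
  set Ψ : E × (Fin m → ℝ) → ℝ := fun p => |Lc p.2 (F p.1)| + ‖(Lc p.2).comp (fderiv ℝ F p.1)‖ with hΨ
  have hΨc : ∀ v, ContinuousAt Ψ (z₀, v) := by
    intro v
    have h1 : ContinuousAt (fun p : E × (Fin m → ℝ) => Lc p.2) (z₀, v) :=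
      (continuous_Lc.comp continuous_snd).continuousAt
    have h2 : ContinuousAt (fun p : E × (Fin m → ℝ) => F p.1) (z₀, v) :=
      ContinuousAt.comp (x := (z₀, v)) (f := Prod.fst) (g := F) hFs.continuousAt continuousAt_fst
    have h3 : ContinuousAt (fun p : E × (Fin m → ℝ) => fderiv ℝ F p.1) (z₀, v) :=
      ContinuousAt.comp (x := (z₀, v)) (f := Prod.fst) (g := fderiv ℝ F) hdF continuousAt_fst
    exact (h1.clm_apply h2).abs.add (h1.clm_comp h3).norm
  have hΨpos : ∀ v : Fin m → ℝ, v ≠ 0 → 0 < Ψ (z₀, v) := by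
    intro v hv
    have h0 : 0 ≤ Ψ (z₀, v) := by positivity
    rcases h0.lt_or_eq with h | h
    · exact h
    · exfalso
      have h1 : |Lc v (F z₀)| + ‖(Lc v).comp (fderiv ℝ F z₀)‖ = 0 := h.symm
      have h2 := abs_nonneg (Lc v (F z₀))
      have h3 := norm_nonneg ((Lc v).comp (fderiv ℝ F z₀))
      have h4 : Lc v (F z₀) = 0 := abs_eq_zero.1 (by linarith)
      have h5 : (Lc v).comp (fderiv ℝ F z₀) = 0 := norm_eq_zero.1 (by linarith)
      rw [← hLF v z₀ hFd0, hcomb] at h5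
      have h6 : (dForm 𝓘(ℝ, E) (A.H v) x₀ : E →L[ℝ] ℝ) = 0 := by
        rw [dForm_eq_fderiv (A.smooth_H hc.smooth v) x₀]
        exact h5
      have h7 : A.H v x₀ = 0 := by
        have h8 : Lc v (F z₀) = A.H v (φ.symm z₀) := congrFun (hcomb v) z₀
        rw [hsz] at h8
        rw [← h8, h4]
      have h8 := A.X_eq_of_crit hc hR h6
      rw [h7, zero_smul] at h8
      exact hv (hfree v h8)
  obtain ⟨μ, hμ, hμΨ⟩ : ∃ μ > (0:ℝ), ∀ v ∈ sphere (0 : Fin m → ℝ) 1, μ < Ψ (z₀, v) := by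
    rcases (sphere (0 : Fin m → ℝ) 1).eq_empty_or_nonempty with he | hne
    · exact ⟨1, one_pos, fun p hp => by rw [he] at hp; exact hp.elim⟩
    · have hcont : ContinuousOn (fun v => Ψ (z₀, v)) (sphere (0 : Fin m → ℝ) 1) := by
        intro v _
        have h1 : ContinuousAt (fun v : Fin m → ℝ => (z₀, v)) v := by fun_prop
        exact (ContinuousAt.comp (x := v) (f := fun v : Fin m → ℝ => (z₀, v)) (g := Ψ)
          (hΨc v) h1).continuousWithinAt
      obtain ⟨p, hp, hmin⟩ := (isCompact_sphere (0 : Fin m → ℝ) 1).exists_isMinOn hne hcont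
      have hp0 : p ≠ 0 := by
        rintro rfl
        simp at hp
      have h1 := hΨpos p hp0
      refine ⟨Ψ (z₀, p) / 2, by positivity, fun v hv => ?_⟩
      have h2 : Ψ (z₀, p) ≤ Ψ (z₀, v) := hmin hv
      linarith
  refine ⟨μ, hμ, ?_⟩
  have hev : ∀ᶠ z in 𝓝 z₀, ∀ v ∈ sphere (0 : Fin m → ℝ) 1, μ < Ψ (z, v) :=
    (isCompact_sphere (0 : Fin m → ℝ) 1).eventually_forall_of_forall_eventually fun v hv =>
      (hΨc v).eventually (lt_mem_nhds (hμΨ v hv))
  have hφc : ContinuousAt φ x₀ := continuousAt_extChartAt x₀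
  filter_upwards [hsrc, hφc.eventually hev, hφc.eventually hFd] with y hy h1 h2 g hg
  by_cases hg0 : g = 0
  · subst hg0
    simp
  have hn : 0 < ‖g‖ := norm_pos_iff.2 hg0
  have hv : ‖g‖⁻¹ • g ∈ sphere (0 : Fin m → ℝ) 1 := by
    rw [mem_sphere_zero_iff_norm, norm_smul, norm_inv, norm_norm, inv_mul_cancel₀ hn.ne']
  have h3 := h1 _ hv
  -- the derivative vanishes in the chart
  have h4 : fderiv ℝ (fun z => Lc g (F z)) (φ y) = 0 := by
    rw [hcomb]
    have h1 : φ y ∈ φ.target := φ.map_source hy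
    have h2 : HasMFDerivAt 𝓘(ℝ, E) 𝓘(ℝ, E) φ.symm (φ y)
        (mfderiv 𝓘(ℝ, E) 𝓘(ℝ, E) φ.symm (φ y)) := by
      have h3 : ContMDiffAt 𝓘(ℝ, E) 𝓘(ℝ, E) ∞ φ.symm (φ y) :=
        (contMDiffOn_extChartAt_symm x₀).contMDiffAt
          ((isOpen_extChartAt_target x₀).mem_nhds h1)
      exact (h3.mdifferentiableAt (by simp)).hasMFDerivAt
    have h3 : HasMFDerivAt 𝓘(ℝ, E) 𝓘(ℝ, ℝ) (A.H g) (φ.symm (φ y)) 0 := by
      rw [φ.left_inv hy]
      have h4 := ((A.smooth_H hc.smooth g).mdifferentiableAt (x := y) (by simp)).hasMFDerivAt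
      have h5 : mfderiv 𝓘(ℝ, E) 𝓘(ℝ, ℝ) (A.H g) y = 0 := hg
      rwa [h5] at h4
    have h4 := HasMFDerivAt.comp (φ y) h3 h2
    have h5 := h4.mfderiv
    rw [mfderiv_eq_fderiv] at h5
    refine h5.trans ?_
    exact ContinuousLinearMap.zero_comp _
  rw [hLF g _ h2] at h4
  have hLs : ∀ (c : ℝ) (v : Fin m → ℝ), Lc (c • v) = c • Lc v := by
    intro c v
    refine ContinuousLinearMap.ext fun y => ?_
    show Lc (c • v) y = c * Lc v y
    rw [Lc_apply, Lc_apply, Finset.mul_sum]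
    refine Finset.sum_congr rfl fun i _ => ?_
    simp only [Pi.smul_apply, smul_eq_mul]
    ring
  have h5 : Ψ (φ y, ‖g‖⁻¹ • g) = ‖g‖⁻¹ * |A.H g y| := by
    show |Lc (‖g‖⁻¹ • g) (F (φ y))| + ‖(Lc (‖g‖⁻¹ • g)).comp (fderiv ℝ F (φ y))‖ = _
    rw [hLs, ContinuousLinearMap.smul_comp, h4, smul_zero, norm_zero, add_zero]
    show |‖g‖⁻¹ * Lc g (F (φ y))| = _
    rw [abs_mul, abs_of_pos (inv_pos.2 hn)]
    have h6 : Lc g (F (φ y)) = A.H g (φ.symm (φ y)) := congrFun (hcomb g) (φ y)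
    rw [h6, φ.left_inv hy]
  rw [h5, ← div_eq_inv_mul, lt_div_iff₀ hn] at h3
  exact h3.le

end bound

end Pool.Agent.R775
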