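import Mathlib
import Pool.Agent.R775.W12

/-! Infinitely many closed Reeb orbits near a nondegenerate quasi-periodic torus. -/

open scoped Topology ContDiff Manifold
open Set Metric Bundle Pool.Agent.Helper186 Pool.Agent.H826R2.Wein Pool.Agent.TH607

noncomputable section

namespace Pool.Agent.R775

set_option linter.unusedSectionVars false

universe u

section lin

variable {E : Type u} [NormedAddCommGroup E] [NormedSpace ℝ E] [FiniteDimensional ℝ E]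
  {P : Type*} [TopologicalSpace P] [ChartedSpace E P] [IsManifold 𝓘(ℝ, E) ∞ P]
  {β : (x : P) → TangentSpace 𝓘(ℝ, E) x →L[ℝ] ℝ} {m : ℕ}
  (A : TS β m)

lemma dHS_add (hβ : SmoothForm β) (κ κ' : Fin m → ℝ) (x : P) :
    dForm 𝓘(ℝ, E) (A.H (κ + κ')) x = dForm 𝓘(ℝ, E) (A.H κ) x + dForm 𝓘(ℝ, E) (A.H κ') x := by
  refine ContinuousLinearMap.ext fun u => ?_
  have h1 : dForm 𝓘(ℝ, E) (A.H (κ + κ')) x u = - extDerL 𝓘(ℝ, E) β x (A.X (κ + κ') x) u :=
    A.dH hβ _ x u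
  rw [A.X_add, map_add] at h1
  have h2 := A.dH hβ κ x u
  have h3 := A.dH hβ κ' x u
  show dForm 𝓘(ℝ, E) (A.H (κ + κ')) x u =
    dForm 𝓘(ℝ, E) (A.H κ) x u + dForm 𝓘(ℝ, E) (A.H κ') x u
  rw [h1, h2, h3, ← extDerL_apply, ← extDerL_apply, ← neg_add]
  rfl

lemma dHS_smul (hβ : SmoothForm β) (c : ℝ) (κ : Fin m → ℝ) (x : P) :
    dForm 𝓘(ℝ, E) (A.H (c • κ)) x = c • dForm 𝓘(ℝ, E) (A.H κ) x := by
  refine ContinuousLinearMap.ext fun u => ?_
  have h1 : dForm 𝓘(ℝ, E) (A.H (c • κ)) x u = - extDerL 𝓘(ℝ, E) β x (A.X (c • κ) x) u :=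
    A.dH hβ _ x u
  rw [A.X_smul, map_smul] at h1
  have h2 := A.dH hβ κ x u
  show dForm 𝓘(ℝ, E) (A.H (c • κ)) x u = c * dForm 𝓘(ℝ, E) (A.H κ) x u
  rw [h1, h2, ← extDerL_apply, mul_neg]
  rfl

end lin

variable {E : Type u} [NormedAddCommGroup E] [NormedSpace ℝ E] [FiniteDimensional ℝ E]
  {M : Type*} [TopologicalSpace M] [ChartedSpace E M] [IsManifold 𝓘(ℝ, E) ∞ M]
  {P : Type*} [TopologicalSpace P] [ChartedSpace E P] [IsManifold 𝓘(ℝ, E) ∞ P]
  {m : ℕ} {q : P → M} {Γ : Type*} [Group Γ] [MulAction Γ P]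
  {α : (x : M) → TangentSpace 𝓘(ℝ, E) x →L[ℝ] ℝ}
  {R : (x : M) → TangentSpace 𝓘(ℝ, E) x}

/-- the orbit of the one-parameter group of `f` through `x` projects to a Reeb orbit -/
def IsFreq (R : (x : M) → TangentSpace 𝓘(ℝ, E) x) (q : P → M)
    (A : TS (pullForm 𝓘(ℝ, E) 𝓘(ℝ, E) q α) m) (x : P) (f : Fin m → ℝ) : Prop :=
  IsMIntegralCurve (I := 𝓘(ℝ, E)) (fun t : ℝ => q (A.act (t • f) x)) R

lemma isFreq_of_crit (hα : IsContact α) (hR : IsReeb α R) (hq : RegCover (E := E) q Γ)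
    (A : TS (pullForm 𝓘(ℝ, E) 𝓘(ℝ, E) q α) m) {x : P} {f : Fin m → ℝ}
    (hw : dForm 𝓘(ℝ, E) (A.H f) x = 0) (hHw : A.H f x = 1) : IsFreq R q A x f := by
  have hcP := hq.isContact_pull hα
  have hRP := hq.isReeb_lift hα hR
  intro t
  have h1 := A.integral f x t
  have h2 := HasMFDerivAt.comp t (g := q) (f := fun t : ℝ => A.fam f (t, x))
    (hq.mdiff _).hasMFDerivAt h1
  refine h2.congr_mfderiv ?_
  refine ContinuousLinearMap.ext fun (r : ℝ) => ?_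
  have h3 := A.X_eq_of_crit hcP hRP (A.crit_act hcP.smooth hw (t • f))
  rw [A.H_act, hHw, one_smul] at h3
  show mfderiv 𝓘(ℝ, E) 𝓘(ℝ, E) q (A.fam f (t, x))
    (r • A.X f (A.fam f (t, x))) = r • R (q (A.fam f (t, x)))
  rw [map_smul]
  congr 1
  have h4 : A.X f (A.fam f (t, x)) = liftField hq R (A.fam f (t, x)) := h3
  rw [h4]
  exact hq.liftField_spec _ _

lemma crit_of_isFreq (hα : IsContact α) (hR : IsReeb α R) (hq : RegCover (E := E) q Γ)
    (A : TS (pullForm 𝓘(ℝ, E) 𝓘(ℝ, E) q α) m) {x : P} {f : Fin m → ℝ}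
    (h : IsFreq R q A x f) : A.H f x = 1 ∧ dForm 𝓘(ℝ, E) (A.H f) x = 0 := by
  have hcP := hq.isContact_pull hα
  have hRP := hq.isReeb_lift hα hR
  have h1 := h 0
  have h0 : HasMFDerivAt 𝓘(ℝ, ℝ) 𝓘(ℝ, E) (fun t : ℝ => A.fam f (t, x)) 0
      ((1 : ℝ →L[ℝ] ℝ).smulRight (A.X f (A.fam f (0, x)))) := A.integral f x 0
  have h2 := HasMFDerivAt.comp (0:ℝ) (g := q) (f := fun t : ℝ => A.fam f (t, x))
    (hq.mdiff _).hasMFDerivAt h0
  have h3 := hasMFDerivAt_unique h2 h1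
  have h4 : mfderiv 𝓘(ℝ, E) 𝓘(ℝ, E) q (A.fam f (0, x)) ((1:ℝ) • A.X f (A.fam f (0, x))) =
      (1:ℝ) • (R (q (A.act ((0:ℝ) • f) x)) : E) := DFunLike.congr_fun h3 (1:ℝ)
  rw [one_smul, one_smul] at h4
  have e0 : A.fam f (0, x) = x := A.fam_zero f x
  have h5 : ∀ z : P, z = x → (mfderiv 𝓘(ℝ, E) 𝓘(ℝ, E) q z (A.X f z) : E) = R (q z) →
      (mfderiv 𝓘(ℝ, E) 𝓘(ℝ, E) q x (A.X f x) : E) = R (q x) := by
    rintro z rfl h; exact h
  have h6 := h5 _ e0 h4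
  have h7 : A.X f x = liftField hq R x := by
    apply hq.inj x
    rw [hq.liftField_spec]
    exact h6
  constructor
  · show pullForm 𝓘(ℝ, E) 𝓘(ℝ, E) q α x (A.X f x) = 1
    rw [h7]
    exact hRP.unit x
  · refine ContinuousLinearMap.ext fun u => ?_
    have h8 := A.dH hcP.smooth f x u
    rw [h7, hRP.kernel, neg_zero] at h8
    exact h8

lemma isFreq_smul (hq : RegCover (E := E) q Γ)
    (A : TS (pullForm 𝓘(ℝ, E) 𝓘(ℝ, E) q α) m) {x : P} {f : Fin m → ℝ}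
    (h : IsFreq R q A x f) {γ : Γ} {B : Matrix (Fin m) (Fin m) ℤ}
    (hB : ∀ (θ : Fin m → ℝ) (x : P),
      γ • A.act θ x = A.act ((B.map (Int.cast : ℤ → ℝ)).mulVec θ) (γ • x)) :
    IsFreq R q A (γ • x) ((B.map (Int.cast : ℤ → ℝ)).mulVec f) := by
  have e : (fun t : ℝ => q (A.act (t • (B.map (Int.cast : ℤ → ℝ)).mulVec f) (γ • x))) =
      fun t : ℝ => q (A.act (t • f) x) := by
    ext1 t
    rw [← Matrix.mulVec_smul, ← hB, hq.proj_smul]
  show IsMIntegralCurve (fun t : ℝ => q (A.act (t • (B.map (Int.cast : ℤ → ℝ)).mulVec f) (γ • x))) R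
  rw [e]
  exact h

lemma isFreq_act (hα : IsContact α) (hR : IsReeb α R) (hq : RegCover (E := E) q Γ)
    (A : TS (pullForm 𝓘(ℝ, E) 𝓘(ℝ, E) q α) m) {x : P} {f : Fin m → ℝ}
    (h : IsFreq R q A x f) (θ : Fin m → ℝ) : IsFreq R q A (A.act θ x) f := by
  have hcP := hq.isContact_pull hα
  obtain ⟨h1, h2⟩ := crit_of_isFreq hα hR hq A h
  exact isFreq_of_crit hα hR hq A (A.crit_act hcP.smooth h2 θ) (by rw [A.H_act, h1])

/-- **Infinitely many closed orbits.** -/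
theorem infinite_orbits (hα : IsContact α) (hR : IsReeb α R) (hq : RegCover (E := E) q Γ)
    (A : TS (pullForm 𝓘(ℝ, E) 𝓘(ℝ, E) q α) m) (hN : A.Norm Γ) (hm : 2 ≤ m)
    {x₀ : P} {w : Fin m → ℝ} (hfree : ∀ κ : Fin m → ℝ, (A.X κ x₀ : E) = 0 → κ = 0)
    (hw : IsFreq R q A x₀ w)
    (hnd : ∀ u : E, (∀ v : E, fderiv ℝ (fderiv ℝ (A.H w ∘ (extChartAt 𝓘(ℝ, E) x₀).symm))
      (extChartAt 𝓘(ℝ, E) x₀ x₀) u v = 0) → ∃ κ, u = A.X κ x₀)
    {U : Set M} (hU : U ∈ 𝓝 (q x₀)) :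
    {C : Set M | ∃ (c : ℝ → M) (T : ℝ), (0 < T ∧ IsMIntegralCurve (I := 𝓘(ℝ, E)) c R ∧
      ∀ t, c (t + T) = c t) ∧ C = range c ∧ (C ∩ U).Nonempty}.Infinite := by
  have hcP := hq.isContact_pull hα
  have hRP := hq.isReeb_lift hα hR
  obtain ⟨hw1, hw2⟩ := crit_of_isFreq hα hR hq A hw
  obtain ⟨μ, hμ, hbd⟩ := freq_bound A hcP hRP hfree
  set N : Set P := {y | ∀ g : Fin m → ℝ, dForm 𝓘(ℝ, E) (A.H g) y = 0 → μ * ‖g‖ ≤ |A.H g y|} with hNdef
  have hqc : Continuous q := hq.contMDiff.continuous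
  have hW : N ∩ q ⁻¹' U ∈ 𝓝 x₀ :=
    Filter.inter_mem hbd (hqc.continuousAt.preimage_mem_nhds hU)
  have hp := persistence A hcP.smooth hfree hw2 hnd hW
  -- an integral direction
  have hp' := eventually_eventually_nhds.2 hp
  obtain ⟨k, s, hk, hs, hks⟩ := exists_int_mem (m := m) (by omega) hp'
  obtain ⟨j, hj⟩ : ∃ j, k j ≠ 0 := by
    by_contra h
    push Not at h
    exact hk (funext h)
  obtain ⟨i, hij⟩ : ∃ i, i ≠ j := by
    have : Nontrivial (Fin m) := Fin.nontrivial_iff_two_le.2 hm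
    exact exists_ne j
  set K : ℕ → Fin m → ℤ := fun n l => ((n:ℤ) + 1) * k l + if l = i then 1 else 0 with hK
  have hKt : Filter.Tendsto (fun n : ℕ => (s / ((n:ℝ) + 1)) • (fun l => (K n l : ℝ)))
      Filter.atTop (𝓝 (s • (fun l => (k l : ℝ)))) := by
    rw [tendsto_pi_nhds]
    intro l
    have h1 : Filter.Tendsto (fun n : ℕ => s * (k l : ℝ) +
        (s * (if l = i then (1:ℝ) else 0)) * (1 / ((n:ℝ) + 1))) Filter.atTop
        (𝓝 (s * (k l : ℝ) + (s * (if l = i then (1:ℝ) else 0)) * 0)) :=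
      tendsto_const_nhds.add (tendsto_one_div_add_atTop_nhds_zero_nat.const_mul _)
    have h2 : s * (k l : ℝ) + (s * (if l = i then (1:ℝ) else 0)) * 0 =
        (s • (fun l => (k l : ℝ))) l := by simp
    rw [h2] at h1
    refine h1.congr fun n => ?_
    have h3 : ((n:ℝ) + 1) ≠ 0 := by positivity
    simp only [Pi.smul_apply, smul_eq_mul, hK]
    push_cast
    field_simp
  obtain ⟨n₁, hn₁⟩ := Filter.eventually_atTop.1 (hKt.eventually hks)
  -- the points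
  have hex : ∀ n : ℕ, ∃ y ∈ N ∩ q ⁻¹' U, dForm 𝓘(ℝ, E) (A.H ((s / (((n + n₁ : ℕ):ℝ) + 1)) •
      (fun l => (K (n + n₁) l : ℝ)))) y = 0 := fun n => hn₁ (n + n₁) (by omega)
  choose y hyN hy using hex
  set a : ℕ → ℝ := fun n => s / (((n + n₁ : ℕ):ℝ) + 1) with ha
  have hapos : ∀ n, 0 < a n := fun n => by positivity
  set κ : ℕ → Fin m → ℝ := fun n l => (K (n + n₁) l : ℝ) with hκ
  have hyc : ∀ n, dForm 𝓘(ℝ, E) (A.H (a n • κ n)) (y n) = 0 := hy
  have hK0 : ∀ n, K n ≠ 0 := by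
    intro n h0
    have h1 := congrFun h0 j
    simp only [hK, hij.symm, if_false, add_zero, Pi.zero_apply] at h1
    rcases mul_eq_zero.1 h1 with h | h
    · omega
    · exact hj h
  have hκ0 : ∀ n, κ n ≠ 0 := by
    intro n h0
    apply hK0 (n + n₁)
    ext l
    have := congrFun h0 l
    simpa [hκ] using this
  set h : ℕ → ℝ := fun n => A.H (a n • κ n) (y n) with hh
  have hh0 : ∀ n, h n ≠ 0 := by
    intro n h0
    have h1 := (hyN n).1 _ (hyc n)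
    have h2 : |A.H (a n • κ n) (y n)| = 0 := by
      rw [abs_eq_zero]; exact h0
    rw [h2] at h1
    have h3 : 0 < ‖a n • κ n‖ := norm_pos_iff.2 (smul_ne_zero (hapos n).ne' (hκ0 n))
    have h4 : 0 < μ * ‖a n • κ n‖ := by positivity
    linarith
  set b : ℕ → ℝ := fun n => (h n)⁻¹ * a n with hb
  have hb0 : ∀ n, b n ≠ 0 := fun n => mul_ne_zero (inv_ne_zero (hh0 n)) (hapos n).ne'
  set f : ℕ → Fin m → ℝ := fun n => b n • κ n with hf
  have hf' : ∀ n, f n = (h n)⁻¹ • (a n • κ n) := fun n => by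
    rw [smul_smul]
  have hfd : ∀ n, dForm 𝓘(ℝ, E) (A.H (f n)) (y n) = 0 := by
    intro n
    rw [hf', dHS_smul A hcP.smooth, hyc]
    exact smul_zero _
  have hf1 : ∀ n, A.H (f n) (y n) = 1 := by
    intro n
    rw [hf', A.H_smul]
    exact inv_mul_cancel₀ (hh0 n)
  have hfr : ∀ n, IsFreq R q A (y n) (f n) := fun n =>
    isFreq_of_crit hα hR hq A (hfd n) (hf1 n)
  -- they are distinct
  have hfinj : Function.Injective f := by
    intro n n' hnn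
    have h1 : ∀ l, b n * (K (n + n₁) l : ℝ) = b n' * (K (n' + n₁) l : ℝ) := fun l => congrFun hnn l
    have h2 := h1 j
    have h3 := h1 i
    have hjr : (k j : ℝ) ≠ 0 := by exact_mod_cast hj
    simp only [hK, hij.symm, if_false, add_zero] at h2
    simp only [hK, if_true] at h3
    push_cast at h2 h3
    have h4 : b n * ((n:ℝ) + n₁ + 1) = b n' * ((n':ℝ) + n₁ + 1) := by
      apply mul_right_cancel₀ hjr
      linarith
    have h5 : b n = b n' := by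
      have h6 : b n * (((n:ℝ) + n₁ + 1) * (k i : ℝ)) = b n' * (((n':ℝ) + n₁ + 1) * (k i : ℝ)) := by
        rw [← mul_assoc, h4, mul_assoc]
      linarith
    rw [h5] at h4
    have h6 := mul_left_cancel₀ (hb0 n') h4
    have h7 : (n:ℝ) = n' := by linarith
    exact_mod_cast h7
  -- the orbits
  set c : ℕ → ℝ → M := fun n t => q (A.act (t • f n) (y n)) with hc
  have hmem : ∀ n, range (c n) ∈ {C : Set M | ∃ (c : ℝ → M) (T : ℝ), (0 < T ∧
      IsMIntegralCurve (I := 𝓘(ℝ, E)) c R ∧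
      ∀ t, c (t + T) = c t) ∧ C = range c ∧ (C ∩ U).Nonempty} := by
    intro n
    refine ⟨c n, |(b n)⁻¹|, ⟨abs_pos.2 (inv_ne_zero (hb0 n)), hfr n, ?_⟩, rfl, ?_⟩
    · have hper1 : ∀ (e : ℤ) (z : P), A.act ((e:ℝ) • κ n) z = z := by
        intro e z
        have h1 : (e:ℝ) • κ n = fun l => ((e * K (n + n₁) l : ℤ) : ℝ) := by
          ext l; simp [hκ]
        rw [h1]
        exact A.period (fun l => e * K (n + n₁) l) z
      intro t
      show q (A.act ((t + |(b n)⁻¹|) • f n) (y n)) = q (A.act (t • f n) (y n))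
      congr 1
      obtain ⟨e, he⟩ : ∃ e : ℤ, |(b n)⁻¹| • f n = (e:ℝ) • κ n := by
        rcases abs_choice ((b n)⁻¹) with h1 | h1
        · refine ⟨1, ?_⟩
          rw [h1]
          show (b n)⁻¹ • (b n • κ n) = _
          rw [smul_smul, inv_mul_cancel₀ (hb0 n)]
          simp
        · refine ⟨-1, ?_⟩
          rw [h1]
          show (-(b n)⁻¹) • (b n • κ n) = _
          rw [smul_smul, neg_mul, inv_mul_cancel₀ (hb0 n)]
          simp
      rw [add_smul, he, A.add, hper1]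
    · refine ⟨q (y n), ⟨0, ?_⟩, (hyN n).2⟩
      show q (A.act ((0:ℝ) • f n) (y n)) = q (y n)
      rw [zero_smul, A.zero]
  intro hfin
  set 𝒪 := {C : Set M | ∃ (c : ℝ → M) (T : ℝ), (0 < T ∧
      IsMIntegralCurve (I := 𝓘(ℝ, E)) c R ∧
      ∀ t, c (t + T) = c t) ∧ C = range c ∧ (C ∩ U).Nonempty} with h𝒪
  have : Finite 𝒪 := hfin
  obtain ⟨C₀, hC₀⟩ := Finite.exists_infinite_fiber (fun n : ℕ => (⟨range (c n), hmem n⟩ : 𝒪))
  have hC₀' : ((fun n : ℕ => (⟨range (c n), hmem n⟩ : 𝒪)) ⁻¹' {C₀}).Infinite :=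
    infinite_coe_iff.1 hC₀
  obtain ⟨n₀, hn₀⟩ := hC₀'.nonempty
  have hrange : ∀ n ∈ ((fun n : ℕ => (⟨range (c n), hmem n⟩ : 𝒪)) ⁻¹' {C₀}), range (c n) = range (c n₀) := by
    intro n hn
    have h1 : (⟨range (c n), hmem n⟩ : 𝒪) = C₀ := hn
    have h2 : (⟨range (c n₀), hmem n₀⟩ : 𝒪) = C₀ := hn₀
    exact congrArg Subtype.val (h1.trans h2.symm)
  apply hC₀'
  -- the finite set of frequencies
  obtain ⟨L, hL⟩ := exists_nat_ge (1 / (μ * |b n₀|))
  have hbpos : 0 < |b n₀| := abs_pos.2 (hb0 n₀)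
  have hfinK : (Icc (fun _ : Fin m => -(L:ℤ)) (fun _ => (L:ℤ))).Finite := Set.finite_Icc _ _
  refine Set.Finite.of_finite_image
    ((hfinK.image (fun (k' : Fin m → ℤ) => (b n₀ • (fun l => (k' l : ℝ)) : Fin m → ℝ))).subset ?_)
    hfinj.injOn
  rintro _ ⟨n, hn, rfl⟩
  have h1 : q (y n) ∈ range (c n₀) := by
    rw [← hrange n hn]
    refine ⟨0, ?_⟩
    show q (A.act ((0:ℝ) • f n) (y n)) = q (y n)
    rw [zero_smul, A.zero]
  obtain ⟨t, ht⟩ := h1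
  obtain ⟨γ, hγ⟩ := (hq.fibre _ _).1 (show q (A.act (t • f n₀) (y n₀)) = q (y n) from ht)
  obtain ⟨B, hB⟩ := hN.norm γ
  have h2 : IsFreq R q A (y n) ((B.map (Int.cast : ℤ → ℝ)).mulVec (f n₀)) := by
    rw [← hγ]
    exact isFreq_smul hq A (isFreq_act hα hR hq A (hfr n₀) _) hB
  obtain ⟨h3, h4⟩ := crit_of_isFreq hα hR hq A h2
  have h5 : (B.map (Int.cast : ℤ → ℝ)).mulVec (f n₀) = f n := by
    rw [← sub_eq_zero]
    have h6 : dForm 𝓘(ℝ, E) (A.H ((B.map (Int.cast : ℤ → ℝ)).mulVec (f n₀) - f n)) (y n) = 0 := by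
      rw [sub_eq_add_neg, ← neg_one_smul ℝ (f n), dHS_add A hcP.smooth, dHS_smul A hcP.smooth, h4,
        hfd]
      rw [smul_zero, add_zero]
    have h7 : A.H ((B.map (Int.cast : ℤ → ℝ)).mulVec (f n₀) - f n) (y n) = 0 := by
      rw [sub_eq_add_neg, ← neg_one_smul ℝ (f n), A.H_add, A.H_smul, h3, hf1]
      norm_num
    have h8 := (hyN n).1 _ h6
    rw [h7, abs_zero] at h8
    have h9 := norm_nonneg ((B.map (Int.cast : ℤ → ℝ)).mulVec (f n₀) - f n)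
    have h10 : ‖(B.map (Int.cast : ℤ → ℝ)).mulVec (f n₀) - f n‖ = 0 := by
      by_contra hne
      have : 0 < ‖(B.map (Int.cast : ℤ → ℝ)).mulVec (f n₀) - f n‖ := lt_of_le_of_ne h9 (Ne.symm hne)
      have : 0 < μ * ‖(B.map (Int.cast : ℤ → ℝ)).mulVec (f n₀) - f n‖ := by positivity
      linarith
    exact norm_eq_zero.1 h10
  have h6 : f n = b n₀ • (fun l => ((B.mulVec (K (n₀ + n₁))) l : ℝ)) := by
    rw [← h5]
    show (B.map (Int.cast : ℤ → ℝ)).mulVec (b n₀ • κ n₀) = _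
    rw [Matrix.mulVec_smul]
    congr 1
    ext l
    simp [Matrix.mulVec, dotProduct, hκ]
  refine ⟨B.mulVec (K (n₀ + n₁)), ?_, h6.symm⟩
  have h7 := (hyN n).1 _ (hfd n)
  rw [hf1, abs_one, h6, norm_smul, Real.norm_eq_abs] at h7
  have h8 : ‖(fun l => ((B.mulVec (K (n₀ + n₁))) l : ℝ))‖ ≤ L := by
    refine le_trans ?_ hL
    rw [le_div_iff₀ (by positivity)]
    linarith
  have h9 : ∀ l, |((B.mulVec (K (n₀ + n₁))) l : ℝ)| ≤ L := fun l => by
    have := norm_le_pi_norm (fun l => ((B.mulVec (K (n₀ + n₁))) l : ℝ)) l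
    rw [Real.norm_eq_abs] at this
    exact this.trans h8
  constructor
  · intro l
    have := (abs_le.1 (h9 l)).1
    exact_mod_cast this
  · intro l
    have := (abs_le.1 (h9 l)).2
    exact_mod_cast this

end Pool.Agent.R775
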