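import Mathlib
import Pool.Agent.R775.W13

/-! Nondegenerate quasi-periodic tori: statement for local torus symmetries. -/

open scoped Topology ContDiff Manifold
open Set Metric Pool.Agent.Helper186 Pool.Agent.H826R2.WStmt Pool.Agent.TH607
  Pool.Agent.TH607.FxStmt

noncomputable section

namespace Pool.Agent.R775

set_option linter.unusedSectionVars false

section defs

variable {E : Type*} [NormedAddCommGroup E] [NormedSpace ℝ E]
  {P : Type*} [TopologicalSpace P] [ChartedSpace E P] {β : P → Cov E} {m : ℕ}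

/-- the value at `x` of the fundamental vector field of the one-parameter group `t ↦ t κ` of the
torus -/
def fundVec (A : TorusSymmetry β m) (κ : Fin m → ℝ) (x : P) : E :=
  D (E := Fin m → ℝ) (E' := E) (fun θ : Fin m → ℝ => A.act θ x) 0 κ

/-- the momentum of `κ` at `x`: the value of the contact form on the fundamental vector field -/
def momentumAt (A : TorusSymmetry β m) (κ : Fin m → ℝ) (x : P) : ℝ := ev (β x) (fundVec A κ x)

/-- the Hessian at `x` of the function `f`, computed in the preferred chart at `x` -/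
def hessian (f : P → ℝ) (x : P) (u v : E) : ℝ :=
  fderiv ℝ (fderiv ℝ (f ∘ (extChartAt 𝓘(ℝ, E) x).symm)) (extChartAt 𝓘(ℝ, E) x x) u v

end defs

variable {E : Type*} [NormedAddCommGroup E] [NormedSpace ℝ E] [FiniteDimensional ℝ E]
  {M : Type*} [TopologicalSpace M] [ChartedSpace E M] [IsManifold 𝓘(ℝ, E) ∞ M]
  {P : Type*} [TopologicalSpace P] [ChartedSpace E P] [IsManifold 𝓘(ℝ, E) ∞ P]
  {Γ : Type*} [Group Γ] [MulAction Γ P]

/-- Let the torus act locally freely at `x`, let `t ↦ q (t w x)` be a Reeb orbit and let the Hessian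
at `x` of the momentum of `w` be nondegenerate transversally to the torus orbit. Then there are
infinitely many closed Reeb orbits through every neighbourhood of `q x`. -/
theorem infinite_of_nondegenerate
    (α : M → Cov E) (hα : IsContact α) (R : M → E) (hR : IsReeb α R)
    (q : P → M) (hq : IsQuotientMap E q Γ)
    {m : ℕ} (hm : 2 ≤ m) (A : TorusSymmetry (pull (E := E) q α) m) (hA : Normalises Γ A.act)
    (x : P) (w : Fin m → ℝ) (hfree : ∀ κ, fundVec A κ x = 0 → κ = 0)
    (hw : IsMIntegralCurve (I := 𝓘(ℝ, E)) (fun t : ℝ => q (A.act (t • w) x))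
      (fun y => (R y : TangentSpace 𝓘(ℝ, E) y)))
    (hnd : ∀ u : E, (∀ v : E, hessian (momentumAt A w) x u v = 0) → ∃ κ, u = fundVec A κ x)
    (U : Set M) (hU : U ∈ 𝓝 (q x)) :
    {C : Set M | (∃ (c : ℝ → M) (T : ℝ), IsPeriodicOrbit R c T ∧ C = range c) ∧
      (C ∩ U).Nonempty}.Infinite := by
  have hq' : H826R2.Wein.RegCover (E := E) q Γ := hq.toWein
  have hN : A.toTS.Norm Γ := ⟨hq'.strict _, hA⟩
  have h1 := infinite_orbits hα.toWein hR.toWein hq' A.toTS hN hm (x₀ := x) (w := w) hfree hw hnd hU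
  refine h1.mono ?_
  rintro C ⟨c, T, ⟨h2, h3, h4⟩, h5, h6⟩
  exact ⟨⟨c, T, ⟨h2, h3, h4⟩, h5⟩, h6⟩

end Pool.Agent.R775
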